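import Mathlib

/-!
# The residuals lie below their chords
-/

set_option autoImplicit false
set_option linter.all false

namespace Pool.Agent.Helper23.CP

/-- a function below its chord, from the second difference -/
theorem chord_aux {T1 T X e f F F1 F2 q : ℝ} (h1 : T1 ≤ T) (h2 : T ≤ X) (hq : 0 ≤ q)
    (hF : (X - T1) * F = (X - T) * F1 + (T - T1) * F2 - (X - T1) * (T - T1) * (X - T) * q)
    (a1 : F1 ≤ e + f * T1) (a2 : F2 ≤ e + f * X) (hF0 : T = T1 → F = F1) : F ≤ e + f * T := by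
  rcases eq_or_lt_of_le (h1.trans h2) with h | h
  · have e1 : T = T1 := le_antisymm (h2.trans h.ge) h1
    rw [hF0 e1, e1]; exact a1
  · have hp : 0 < X - T1 := by linarith
    have b1 := mul_le_mul_of_nonneg_left a1 (by linarith : 0 ≤ X - T)
    have b2 := mul_le_mul_of_nonneg_left a2 (by linarith : 0 ≤ T - T1)
    have b3 : 0 ≤ (X - T1) * (T - T1) * (X - T) * q :=
      mul_nonneg (mul_nonneg (mul_nonneg hp.le (by linarith)) (by linarith)) hq
    have b4 : (X - T1) * F ≤ (X - T1) * (e + f * T) := by nlinarith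
    exact le_of_mul_le_mul_left b4 hp

/-- the residual of the ball -/
theorem chord_ball {T1 T X e f : ℝ} (h1 : T1 ≤ T) (h2 : T ≤ X) (hX : X < 1)
    (a1 : T1 ^ 2 / (1 - T1) / 32 ≤ e + f * T1) (a2 : X ^ 2 / (1 - X) / 32 ≤ e + f * X) :
    T ^ 2 / (1 - T) / 32 ≤ e + f * T := by
  have p1 : 0 < 1 - T1 := by linarith
  have p2 : 0 < 1 - T := by linarith
  have p3 : 0 < 1 - X := by linarith
  refine chord_aux (q := 1 / ((1 - T1) * (1 - T) * (1 - X)) / 32) h1 h2 (by positivity) ?_ a1 a2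
    (fun h => by rw [h])
  field_simp
  ring

/-- the residual of the contacts -/
theorem chord_con {T1 T X e f a b d : ℝ} (h0 : 0 ≤ T1) (h1 : T1 ≤ T) (h2 : T ≤ X) (ha : 0 ≤ a)
    (hb : 0 ≤ b) (a1 : (a + b * T1) * T1 ^ 2 + d ≤ e + f * T1)
    (a2 : (a + b * X) * X ^ 2 + d ≤ e + f * X) : (a + b * T) * T ^ 2 + d ≤ e + f * T := by
  refine chord_aux (q := a + b * (T + T1 + X)) h1 h2 ?_ ?_ a1 a2 (fun h => by rw [h])
  · have : 0 ≤ T + T1 + X := by linarith
    positivity
  · ring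

end Pool.Agent.Helper23.CP
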