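import Pool.Agent.Helper23.CP.Frame

/-!
# The configuration lemma

`frame`: four points on a sphere about the origin with defects `t`, in a suitable frame.
`config`: a compact set of diameter at most one, moved by an isometry, lies in the explicit domain
given by the affine state `pt t j`.
-/

namespace Pool.Agent.Helper23.CP

open Finset

/-- **Frame lemma**, exact form. -/
theorem frame (p : Fin 4 → E3) {R : ℝ} (hR : ∀ i, ‖p i‖ = R) (ht : ∀ i, 0 ≤ td p i)
    (hT : Ts (td p) < 1) :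
    ∃ (Φ : E3 ≃ₗᵢ[ℝ] V3) (v : OrthonormalBasis (Fin 3) ℝ V3) (s : Fin 3 → ℝ) (y : V3),
      (∀ i, 0 < s i) ∧ (∀ i, 1 - Ts (td p) ≤ s i ^ 2) ∧ (∀ i, s i ^ 2 ≤ 1 + Ts (td p) / 2) ∧
      (∀ i (x : V3), bil (Am (td p)) x (v i) = s i ^ 2 * inner ℝ x (v i)) ∧
      (∀ x, inner ℝ y (op v s x) = inner ℝ (wv (td p)) x) ∧
      ∀ j, Φ (p j) = (Real.sqrt 2 / 4) • (op v s (sv j) - (1 / 2 : ℝ) • y) := by
  obtain ⟨v, s, hs0, hlo, hhi, hv⟩ := exists_eig (Am (td p)) (Am_herm _)
    (lo := 1 - Ts (td p)) (hi := 1 + Ts (td p) / 2) (by linarith)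
    (fun x => bil_lo _ ht x) (fun x => bil_hi _ ht x)
  have h2 : (0 : ℝ) < Real.sqrt 2 := Real.sqrt_pos.2 (by norm_num)
  have h22 : Real.sqrt 2 ^ 2 = 2 := Real.sq_sqrt (by norm_num)
  let f : Fin 3 → E3 := fun i => (1 / (Real.sqrt 2 * s i)) • Lm p (v i)
  have hf : Orthonormal ℝ f := by
    rw [orthonormal_iff_ite]
    intro i j
    show inner ℝ ((1 / (Real.sqrt 2 * s i)) • Lm p (v i)) ((1 / (Real.sqrt 2 * s j)) • Lm p (v j)) = _
    rw [real_inner_smul_left, real_inner_smul_right, inner_Lm p hR, hv j (v i)]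
    by_cases hij : i = j
    · subst hij
      rw [if_pos rfl, real_inner_self_eq_norm_sq, v.orthonormal.1 i]
      have := (hs0 i).ne'
      field_simp
      nlinarith [h22]
    · rw [if_neg hij, v.orthonormal.2 hij]; ring
  obtain ⟨b, hb⟩ := Orthonormal.exists_orthonormalBasis_extension_of_card_eq
    (𝕜 := ℝ) (E := E3) (ι := Fin 3) (by simp) (v := f) (s := Set.univ) (by
      have := hf.comp (fun x : (Set.univ : Set (Fin 3)) => (x : Fin 3)) Subtype.val_injective
      exact this)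
  have hb' : ∀ i, b i = f i := fun i => hb i (Set.mem_univ i)
  let Φ : E3 ≃ₗᵢ[ℝ] V3 := b.repr.trans v.repr.symm
  have hΦ : ∀ (z : E3) i, inner ℝ (v i) (Φ z) = inner ℝ (b i) z := by
    intro z i
    have h1 : inner ℝ (v i) (Φ z) = v.repr (Φ z) i := (v.repr_apply_apply (Φ z) i).symm
    have h3 : v.repr (Φ z) = b.repr z := by
      show v.repr (v.repr.symm (b.repr z)) = b.repr z
      exact v.repr.apply_symm_apply _
    rw [h1, h3, b.repr_apply_apply]
  have hL : ∀ x : V3, Φ (Lm p x) = Real.sqrt 2 • op v s x := by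
    intro x
    apply ext_v v
    intro i
    rw [hΦ, real_inner_smul_right, inner_op, hb']
    show inner ℝ ((1 / (Real.sqrt 2 * s i)) • Lm p (v i)) (Lm p x) = _
    rw [real_inner_smul_left, real_inner_comm, inner_Lm p hR, hv i x, real_inner_comm]
    have := (hs0 i).ne'
    field_simp
    rw [h22]
  refine ⟨Φ, v, s, (-(4 * Real.sqrt 2)) • Φ (cg p), hs0, hlo, hhi, hv, ?_, ?_⟩
  · intro x
    have h1 : inner ℝ (Φ (cg p)) (Real.sqrt 2 • op v s x) = inner ℝ (cg p) (Lm p x) := by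
      rw [← hL, LinearIsometryEquiv.inner_map_map]
    rw [inner_cg p hR, real_inner_smul_right] at h1
    rw [real_inner_smul_left]
    linarith
  · intro j
    conv_lhs => rw [p_eq p j]
    rw [map_add, map_smul, hL]
    have : (Real.sqrt 2 / 4) * (1 / 2) * (4 * Real.sqrt 2) = 1 := by nlinarith [h22]
    rw [smul_sub, smul_smul, smul_smul, smul_smul]
    have e1 : Real.sqrt 2 / 4 * (1 / 2) * -(4 * Real.sqrt 2) = -1 := by nlinarith [h22]
    rw [e1]
    have e2 : 1 / 4 * Real.sqrt 2 = Real.sqrt 2 / 4 := by ring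
    rw [e2]
    module

end Pool.Agent.Helper23.CP
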