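import Pool.Agent.Helper23.CP.Config

/-!
# The configuration lemma, affine form
-/

namespace Pool.Agent.Helper23.CP

open Finset

/-- coordinates of the affine state (times `4 / sqrt 2`): `t 0 .. t 5` = `t01 t02 t03 t12 t13 t23` -/
noncomputable def Ct (t : Fin 6 → ℝ) : Fin 4 → Fin 3 → ℝ :=
  ![![(4 + 3 * t 0 - 2 * t 1 - 2 * t 2 - t 5) / 4, (4 + 3 * t 1 - 2 * t 0 - 2 * t 2 - t 4) / 4,
      (4 + 3 * t 2 - 2 * t 0 - 2 * t 1 - t 3) / 4],
    ![(4 + 3 * t 0 - 2 * t 3 - 2 * t 4 - t 5) / 4, - (4 + 3 * t 4 - 2 * t 0 - 2 * t 3 - t 1) / 4,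
      - (4 + 3 * t 3 - 2 * t 0 - 2 * t 4 - t 2) / 4],
    ![- (4 + 3 * t 5 - 2 * t 1 - 2 * t 3 - t 0) / 4, (4 + 3 * t 1 - 2 * t 3 - 2 * t 5 - t 4) / 4,
      - (4 + 3 * t 3 - 2 * t 1 - 2 * t 5 - t 2) / 4],
    ![- (4 + 3 * t 5 - 2 * t 2 - 2 * t 4 - t 0) / 4, - (4 + 3 * t 4 - 2 * t 2 - 2 * t 5 - t 1) / 4,
      (4 + 3 * t 2 - 2 * t 4 - 2 * t 5 - t 3) / 4]]

noncomputable def Av (t : Fin 6 → ℝ) (x : V3) : V3 := WithLp.toLp 2 ((Am t).mulVec x.ofLp)

/-- the affine state -/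
noncomputable def pt (t : Fin 6 → ℝ) (j : Fin 4) : V3 :=
  (Real.sqrt 2 / 4) • (sv j + (1 / 2 : ℝ) • (Av t (sv j) - sv j) - (1 / 2 : ℝ) • wv t)

theorem pt_apply (t : Fin 6 → ℝ) (j : Fin 4) (k : Fin 3) :
    pt t j k = Real.sqrt 2 / 4 * Ct t j k := by
  unfold pt Av sv wv Ct Am Em sg
  fin_cases j <;> fin_cases k <;>
    simp [Matrix.mulVec, dotProduct, Fin.sum_univ_three] <;> ring

theorem inner_pt (t : Fin 6 → ℝ) (j : Fin 4) (z : V3) :
    inner ℝ z (pt t j) = Real.sqrt 2 / 4 * ∑ k, z k * Ct t j k := by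
  rw [PiLp.inner_apply, mul_sum]
  refine sum_congr rfl (fun k _ => ?_)
  rw [pt_apply]
  simp only [RCLike.inner_apply, conj_trivial]
  ring

theorem op_op (t : Fin 6 → ℝ) (v : OrthonormalBasis (Fin 3) ℝ V3) (s : Fin 3 → ℝ)
    (hv : ∀ i (x : V3), bil (Am t) x (v i) = s i ^ 2 * inner ℝ x (v i)) (x : V3) :
    op v s (op v s x) = Av t x := by
  apply ext_v v
  intro i
  rw [inner_op, inner_op]
  have h1 : inner ℝ (v i) (Av t x) = bil (Am t) (v i) x := (bil_eq _ _ _).symm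
  rw [h1, bil_symm, hv i x, real_inner_comm]
  ring

theorem op_sub_one (v : OrthonormalBasis (Fin 3) ℝ V3) (s : Fin 3 → ℝ) (x : V3) :
    op v (fun i => s i - 1) x = op v s x - x := by
  apply ext_v v
  intro i
  rw [inner_op, inner_sub_right, inner_op]
  ring

theorem op_lin (v : OrthonormalBasis (Fin 3) ℝ V3) (s : Fin 3 → ℝ) (a b : ℝ) (x z : V3) :
    op v s (a • x + b • z) = a • op v s x + b • op v s z := by
  apply ext_v v
  intro i
  simp only [inner_op, inner_add_right, real_inner_smul_right]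
  ring

/-- bounds of the eigenvalues -/
theorem s_sub_one {T s : ℝ} (hT0 : 0 ≤ T) (hT : T < 1) (hs : 0 < s) (h1 : 1 - T ≤ s ^ 2)
    (h2 : s ^ 2 ≤ 1 + T / 2) : |s - 1| ≤ T / (2 - T) := by
  have hd : 0 < 2 - T := by linarith
  have hν : T / (2 - T) * (2 - T) = T := div_mul_cancel₀ _ hd.ne'
  set ν := T / (2 - T) with hνd
  have hν0 : 0 ≤ ν := div_nonneg hT0 hd.le
  have hν1 : ν < 1 := by
    rw [hνd, div_lt_one hd]; linarith
  have hTe : T = 2 * ν / (1 + ν) := by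
    field_simp
    nlinarith
  rw [abs_le]
  have e1 : T * (1 + ν) = 2 * ν := by nlinarith
  constructor
  · -- 1 - ν ≤ s
    by_contra hcon
    push Not at hcon
    have h3 : s < 1 - ν := by linarith
    have h4 : s ^ 2 < (1 - ν) ^ 2 := by nlinarith
    have h5 : (1 - ν) ^ 2 ≤ 1 - T := by nlinarith [mul_nonneg hT0 hν0, sq_nonneg ν]
    linarith
  · by_contra hcon
    push Not at hcon
    have h3 : 1 + ν < s := by linarith
    have h4 : (1 + ν) ^ 2 < s ^ 2 := by nlinarith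
    have h5 : 1 + T / 2 ≤ (1 + ν) ^ 2 := by nlinarith [mul_nonneg hT0 hν0, sq_nonneg ν]
    linarith

end Pool.Agent.Helper23.CP
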