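import Pool.Agent.Helper23.CP.Config2

/-!
# The configuration lemma, final form
-/

namespace Pool.Agent.Helper23.CP

open Finset

/-- `|w|² ≤ T²` -/
theorem wv_le (t : Fin 6 → ℝ) (ht : ∀ i, 0 ≤ t i) : ‖wv t‖ ^ 2 ≤ Ts t ^ 2 := by
  rw [nsq]
  unfold wv Ts
  simp
  nlinarith [ht 0, ht 1, ht 2, ht 3, ht 4, ht 5, mul_nonneg (ht 0) (ht 1),
    mul_nonneg (ht 0) (ht 2), mul_nonneg (ht 0) (ht 3), mul_nonneg (ht 0) (ht 4),
    mul_nonneg (ht 0) (ht 5), mul_nonneg (ht 1) (ht 2), mul_nonneg (ht 1) (ht 3),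
    mul_nonneg (ht 1) (ht 4), mul_nonneg (ht 1) (ht 5), mul_nonneg (ht 2) (ht 3),
    mul_nonneg (ht 2) (ht 4), mul_nonneg (ht 2) (ht 5), mul_nonneg (ht 3) (ht 4),
    mul_nonneg (ht 3) (ht 5), mul_nonneg (ht 4) (ht 5)]

theorem sv_norm (j : Fin 4) : ‖sv j‖ ^ 2 = 3 := by
  rw [nsq]
  fin_cases j <;> simp [sv, sg] <;> norm_num

/-- **exact state inequality**: `R²` and the residual -/
theorem state {p : Fin 4 → E3} {R : ℝ} (hR : ∀ i, ‖p i‖ = R) (hR0 : 0 ≤ R)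
    (ht : ∀ i, 0 ≤ td p i) (hT : Ts (td p) < 1) :
    ∃ (Φ : E3 ≃ₗᵢ[ℝ] V3) (Y : ℝ), 0 ≤ Y ∧ Y ≤ Ts (td p) ^ 2 / (1 - Ts (td p)) ∧
      R ^ 2 = (6 - Ts (td p)) / 16 + Y / 32 ∧
      ∀ (z : V3) (j : Fin 4), ‖z‖ ≤ R → ‖z - Φ (p j)‖ ≤ 1 →
        ‖z‖ ^ 2 + (6 - Ts (td p)) / 16 - 1 - 2 * inner ℝ z (pt (td p) j) ≤
          (Ts (td p) / (2 - Ts (td p))) ^ 2 * (R ^ 2 + 613 / 1000 * R) := by
  obtain ⟨Φ, v, s, y, hs0, hlo, hhi, hv, hy, hΦ⟩ := frame p hR ht hT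
  set t := td p with htd
  have hT0 : 0 ≤ Ts t := by
    unfold Ts; linarith [ht 0, ht 1, ht 2, ht 3, ht 4, ht 5]
  have h22 : Real.sqrt 2 ^ 2 = 2 := Real.sq_sqrt (by norm_num)
  have h2 : (0 : ℝ) < Real.sqrt 2 := Real.sqrt_pos.2 (by norm_num)
  have hSS : ∀ x, op v s (op v s x) = Av t x := op_op t v s hv
  -- w = S y
  have hw : wv t = op v s y := by
    apply ext_v v
    intro i
    rw [← real_inner_comm, ← hy (v i), ← op_symm]
    rw [real_inner_comm]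
  -- |y|² ≤ T²/(1-T)
  have hyw : (1 - Ts t) * ‖y‖ ^ 2 ≤ Ts t ^ 2 := by
    refine le_trans ?_ (wv_le t ht)
    rw [hw, norm_sq_eq v, norm_sq_eq v (op v s y), mul_sum]
    refine sum_le_sum (fun i _ => ?_)
    rw [inner_op, mul_pow]
    exact mul_le_mul_of_nonneg_right (hlo i) (sq_nonneg _)
  have hY : ‖y‖ ^ 2 ≤ Ts t ^ 2 / (1 - Ts t) := by
    rw [le_div_iff₀ (by linarith)]
    linarith
  -- R²
  have hRR : R ^ 2 = (6 - Ts t) / 16 + ‖y‖ ^ 2 / 32 := by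
    have h1 : ‖Φ (p 0)‖ = R := by rw [Φ.norm_map, hR]
    rw [hΦ 0] at h1
    have h3 : R ^ 2 = (Real.sqrt 2 / 4) ^ 2 * ‖op v s (sv 0) - (1 / 2 : ℝ) • y‖ ^ 2 := by
      rw [← h1, norm_smul, mul_pow, Real.norm_eq_abs, sq_abs]
    have h4 : ‖op v s (sv 0) - (1 / 2 : ℝ) • y‖ ^ 2 = ‖op v s (sv 0)‖ ^ 2 -
        inner ℝ (wv t) (sv 0) + ‖y‖ ^ 2 / 4 := by
      rw [norm_sub_sq_real, real_inner_smul_right, norm_smul, mul_pow,
        real_inner_comm, hy (sv 0)]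
      rw [Real.norm_eq_abs, sq_abs]
      ring
    have h5 : ‖op v s (sv 0)‖ ^ 2 = bil (Am t) (sv 0) (sv 0) := by
      rw [← real_inner_self_eq_norm_sq, op_symm, hSS, bil_eq]
      rfl
    have h6 : bil (Am t) (sv 0) (sv 0) - inner ℝ (wv t) (sv 0) = 3 - Ts t / 2 := by
      rw [bil_Am, nsq, PiLp.inner_apply]
      simp [Fin.sum_univ_three, sv, sg, wv, Ts]
      ring
    rw [h3, h4, h5]
    have h7 : (Real.sqrt 2 / 4) ^ 2 = 1 / 8 := by nlinarith [h22]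
    rw [h7]
    linarith
  refine ⟨Φ, ‖y‖ ^ 2, sq_nonneg _, hY, hRR, ?_⟩
  intro z j hz hzj
  -- N
  set ν := Ts t / (2 - Ts t) with hν
  have hν0 : 0 ≤ ν := div_nonneg hT0 (by linarith)
  have hN : ∀ x, ‖op v s x - x‖ ≤ ν * ‖x‖ := by
    intro x
    rw [← op_sub_one]
    exact norm_op_le v _ hν0 (fun i => s_sub_one hT0 hT (hs0 i) (hlo i) (hhi i)) x
  have hres : Φ (p j) = pt t j + (Real.sqrt 2 / 8) •
      ((op v s (y - (op v s (sv j) - sv j))) - (y - (op v s (sv j) - sv j))) := by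
    rw [hΦ j]
    unfold pt
    rw [← hSS, hw]
    have e : op v s (y - (op v s (sv j) - sv j)) =
        op v s y - op v s (op v s (sv j)) + op v s (sv j) := by
      apply ext_v v
      intro i
      simp only [inner_op, inner_sub_right, inner_add_right]
      ring
    rw [e]
    module
  have hin : 2 * inner ℝ z (Φ (p j)) = 2 * inner ℝ z (pt t j) + Real.sqrt 2 / 4 *
      inner ℝ (op v s z - z) (y - (op v s (sv j) - sv j)) := by
    rw [hres, inner_add_right, real_inner_smul_right, inner_sub_right, inner_sub_left, ← op_symm]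
    ring
  have hexp : ‖z‖ ^ 2 + R ^ 2 - 2 * inner ℝ z (Φ (p j)) ≤ 1 := by
    have h1 : ‖z - Φ (p j)‖ ^ 2 ≤ 1 := by
      have := norm_nonneg (z - Φ (p j))
      nlinarith
    rw [norm_sub_sq_real, Φ.norm_map, hR] at h1
    linarith
  have hsv : ‖sv j‖ ≤ 17321 / 10000 := by
    have h1 := sv_norm j
    have h3 := norm_nonneg (sv j)
    nlinarith
  have hNs : ‖op v s (sv j) - sv j‖ ≤ ν * (17321 / 10000) :=
    (hN _).trans (mul_le_mul_of_nonneg_left hsv hν0)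
  have hNz : ‖op v s z - z‖ ≤ ν * R := (hN z).trans (mul_le_mul_of_nonneg_left hz hν0)
  have hsq2 : Real.sqrt 2 ≤ 14143 / 10000 := by
    rw [Real.sqrt_le_left (by norm_num)]; norm_num
  have hc : inner ℝ (op v s z - z) (y - (op v s (sv j) - sv j)) ≤
      ‖op v s z - z‖ * (‖y‖ + ν * (17321 / 10000)) := by
    refine (real_inner_le_norm _ _).trans (mul_le_mul_of_nonneg_left ?_ (norm_nonneg _))
    exact (norm_sub_le _ _).trans (by linarith)
  have hfin : Real.sqrt 2 / 4 * inner ℝ (op v s z - z) (y - (op v s (sv j) - sv j)) -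
      ‖y‖ ^ 2 / 32 ≤ ν ^ 2 * (R ^ 2 + 613 / 1000 * R) := by
    set a := ‖op v s z - z‖ with ha
    have ha0 : 0 ≤ a := norm_nonneg _
    have h1 : Real.sqrt 2 / 4 * inner ℝ (op v s z - z) (y - (op v s (sv j) - sv j)) ≤
        Real.sqrt 2 / 4 * (a * (‖y‖ + ν * (17321 / 10000))) :=
      mul_le_mul_of_nonneg_left hc (by positivity)
    have h3 : Real.sqrt 2 / 4 * (a * ‖y‖) - ‖y‖ ^ 2 / 32 ≤ a ^ 2 := by
      nlinarith [sq_nonneg (4 * Real.sqrt 2 * a - ‖y‖), h22]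
    have h4 : a ^ 2 ≤ ν ^ 2 * R ^ 2 := by
      rw [← mul_pow]; exact pow_le_pow_left₀ ha0 hNz 2
    have h5 : Real.sqrt 2 / 4 * (a * (ν * (17321 / 10000))) ≤ ν ^ 2 * (613 / 1000 * R) := by
      have h6 : a * (ν * (17321 / 10000)) ≤ ν * R * (ν * (17321 / 10000)) :=
        mul_le_mul_of_nonneg_right hNz (by positivity)
      have h7 : 0 ≤ ν * R * (ν * (17321 / 10000)) := by positivity
      have h8 : Real.sqrt 2 / 4 * (a * (ν * (17321 / 10000))) ≤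
          (14143 / 10000) / 4 * (ν * R * (ν * (17321 / 10000))) :=
        mul_le_mul (by linarith) h6 (by positivity) (by positivity)
      nlinarith [mul_nonneg (mul_nonneg hν0 hν0) hR0]
    nlinarith
  linarith

end Pool.Agent.Helper23.CP
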