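import Pool.Agent.Helper23.CP.Config3

/-!
# The configuration lemma for a body
-/

namespace Pool.Agent.Helper23.CP

open Finset

/-- the sum of the defects from the weights -/
theorem sum_le {p : Fin 4 → E3} {R : ℝ} (hR : ∀ i, ‖p i‖ = R) (hR3 : 1 / 3 ≤ R ^ 2)
    (ht : ∀ i, 0 ≤ td p i) {l : Fin 4 → ℝ} (hl0 : ∀ i, 0 < l i) (hl1 : ∑ i, l i = 1)
    (hlz : ∑ i, l i • p i = 0) :
    Ts (td p) * (4 * R ^ 2 - 1) ≤ 3 - 8 * R ^ 2 := by
  have es : ∀ i j, ‖p i - p j‖ = ‖p j - p i‖ := fun i j => norm_sub_rev _ _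
  have h : ∀ i, ∑ j, l j * ((2 * R ^ 2 - ‖p i - p j‖ ^ 2) / 2) = 0 := by
    intro i
    have h1 : inner ℝ (p i) (∑ j, l j • p j) = 0 := by rw [hlz, inner_zero_right]
    rw [inner_sum] at h1
    rw [← h1]
    refine sum_congr rfl (fun j _ => ?_)
    rw [real_inner_smul_right, inner_pp p hR]
  have h0 := h 0
  have h1 := h 1
  have h2 := h 2
  have h3 := h 3
  simp only [Fin.sum_univ_four, sub_self, norm_zero] at h0 h1 h2 h3 hl1
  rw [es 1 0] at h1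
  rw [es 2 0, es 2 1] at h2
  rw [es 3 0, es 3 1, es 3 2] at h3
  have t0 : ‖p 0 - p 1‖ ^ 2 = 1 - td p 0 := by simp [td]
  have t1 : ‖p 0 - p 2‖ ^ 2 = 1 - td p 1 := by simp [td]
  have t2 : ‖p 0 - p 3‖ ^ 2 = 1 - td p 2 := by simp [td]
  have t3 : ‖p 1 - p 2‖ ^ 2 = 1 - td p 3 := by simp [td]
  have t4 : ‖p 1 - p 3‖ ^ 2 = 1 - td p 4 := by simp [td]
  have t5 : ‖p 2 - p 3‖ ^ 2 = 1 - td p 5 := by simp [td]
  rw [t0, t1, t2] at h0
  rw [t0, t3, t4] at h1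
  rw [t1, t3, t5] at h2
  rw [t2, t4, t5] at h3
  unfold Ts
  generalize td p = t at *
  have a0 := ht 0
  have a1 := ht 1
  have a2 := ht 2
  have a3 := ht 3
  have a4 := ht 4
  have a5 := ht 5
  have b0 := hl0 0
  have b1 := hl0 1
  have b2 := hl0 2
  have b3 := hl0 3
  generalize t 0 = x0 at *
  generalize t 1 = x1 at *
  generalize t 2 = x2 at *
  generalize t 3 = x3 at *
  generalize t 4 = x4 at *
  generalize t 5 = x5 at *
  generalize l 0 = l0 at *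
  generalize l 1 = l1 at *
  generalize l 2 = l2 at *
  generalize l 3 = l3 at *
  -- l_i = 1 - 2R² - sum
  have e0 : l0 = 1 - 2 * R ^ 2 - (l1 * x0 + l2 * x1 + l3 * x2) := by
    linear_combination 2 * h0 - (2 * R ^ 2 - 1) * hl1
  have e1 : l1 = 1 - 2 * R ^ 2 - (l0 * x0 + l2 * x3 + l3 * x4) := by
    linear_combination 2 * h1 - (2 * R ^ 2 - 1) * hl1
  have e2 : l2 = 1 - 2 * R ^ 2 - (l0 * x1 + l1 * x3 + l3 * x5) := by
    linear_combination 2 * h2 - (2 * R ^ 2 - 1) * hl1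
  have e3 : l3 = 1 - 2 * R ^ 2 - (l0 * x2 + l1 * x4 + l2 * x5) := by
    linear_combination 2 * h3 - (2 * R ^ 2 - 1) * hl1
  have u0 : l0 ≤ 1 - 2 * R ^ 2 := by
    have := mul_nonneg b1.le a0; have := mul_nonneg b2.le a1; have := mul_nonneg b3.le a2; linarith
  have u1 : l1 ≤ 1 - 2 * R ^ 2 := by
    have := mul_nonneg b0.le a0; have := mul_nonneg b2.le a3; have := mul_nonneg b3.le a4; linarith
  have u2 : l2 ≤ 1 - 2 * R ^ 2 := by
    have := mul_nonneg b0.le a1; have := mul_nonneg b1.le a3; have := mul_nonneg b3.le a5; linarith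
  have u3 : l3 ≤ 1 - 2 * R ^ 2 := by
    have := mul_nonneg b0.le a2; have := mul_nonneg b1.le a4; have := mul_nonneg b2.le a5; linarith
  have hs : (l0 + l1) * x0 + (l0 + l2) * x1 + (l0 + l3) * x2 + (l1 + l2) * x3 + (l1 + l3) * x4 +
      (l2 + l3) * x5 = 3 - 8 * R ^ 2 := by
    linarith
  have g : ∀ x a b : ℝ, 0 ≤ x → a ≤ 1 - 2 * R ^ 2 → b ≤ 1 - 2 * R ^ 2 →
      x * (4 * R ^ 2 - 1) ≤ (1 - a - b) * x := by
    intro x a b hx ha hb
    nlinarith [mul_nonneg hx (sub_nonneg.2 ha), mul_nonneg hx (sub_nonneg.2 hb)]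
  have g0 := g x0 l2 l3 a0 u2 u3
  have g1 := g x1 l1 l3 a1 u1 u3
  have g2 := g x2 l1 l2 a2 u1 u2
  have g3 := g x3 l0 l3 a3 u0 u3
  have g4 := g x4 l0 l2 a4 u0 u2
  have g5 := g x5 l0 l1 a5 u0 u1
  have w0 : (1 - l2 - l3) * x0 = (l0 + l1) * x0 := by rw [← hl1]; ring
  have w1 : (1 - l1 - l3) * x1 = (l0 + l2) * x1 := by rw [← hl1]; ring
  have w2 : (1 - l1 - l2) * x2 = (l0 + l3) * x2 := by rw [← hl1]; ring
  have w3 : (1 - l0 - l3) * x3 = (l1 + l2) * x3 := by rw [← hl1]; ring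
  have w4 : (1 - l0 - l2) * x4 = (l1 + l3) * x4 := by rw [← hl1]; ring
  have w5 : (1 - l0 - l1) * x5 = (l2 + l3) * x5 := by rw [← hl1]; ring
  linarith

/-- **CONFIGURATION LEMMA.** `K` compact, of diameter at most one, in no ball of radius `r0` but in
a ball of radius `R1`. -/
theorem config {K : Set E3} (hK : IsCompact K) (hd : ∀ x ∈ K, ∀ y ∈ K, dist x y ≤ 1)
    {r0 R1 X : ℝ} (hr0 : 0 ≤ r0) (hr3 : 1 / 3 ≤ r0 ^ 2) (hno : ¬ ∃ x0, K ⊆ Metric.closedBall x0 r0)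
    (hin : ∃ x1, K ⊆ Metric.closedBall x1 R1) (hX0 : 0 ≤ X) (hX1 : X < 1)
    (hX : 3 - 8 * r0 ^ 2 ≤ X * (4 * r0 ^ 2 - 1)) :
    ∃ (Φ : E3 ≃ₗᵢ[ℝ] V3) (x0 : E3) (t : Fin 6 → ℝ), (∀ i, 0 ≤ t i) ∧
      6 - 16 * R1 ^ 2 ≤ Ts t ∧ Ts t ≤ X ∧
      ∀ q ∈ K, ‖Φ (q - x0)‖ ^ 2 ≤ (6 - Ts t) / 16 + Ts t ^ 2 / (1 - Ts t) / 32 ∧
        ‖Φ (q - x0)‖ ≤ R1 ∧
        ∀ j, ‖Φ (q - x0)‖ ^ 2 + (6 - Ts t) / 16 - 1 - 2 * (Real.sqrt 2 / 4 *
          ∑ k, Φ (q - x0) k * Ct t j k) ≤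
            (Ts t / (2 - Ts t)) ^ 2 * (R1 ^ 2 + 613 / 1000 * R1) := by
  obtain ⟨x0, R, p, l, hrR, hKR, hpK, hpR, hl0, hl1, hlz, hpp⟩ := exists_contact hK hd hr0 hr3 hno
  have hR0 : 0 ≤ R := hr0.trans hrR.le
  have hRr : r0 ^ 2 ≤ R ^ 2 := by nlinarith
  have hRR : R ≤ R1 := by
    obtain ⟨x1, hx1⟩ := hin
    have hvar := var_id p l hl1 x1
    have hvar0 := var_id p l hl1 x0
    rw [hlz, norm_zero] at hvar0
    have e0 : ∑ i, l i * ‖p i - x0‖ ^ 2 = R ^ 2 := by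
      simp only [hpR]; rw [← sum_mul, hl1, one_mul]
    have hb : ∀ i, ‖p i - x1‖ ≤ R1 := fun i => by
      have := hx1 (hpK i); rwa [Metric.mem_closedBall, dist_eq_norm] at this
    have hR1 : 0 ≤ R1 := (norm_nonneg _).trans (hb 0)
    have e1 : ∑ i, l i * ‖p i - x1‖ ^ 2 ≤ R1 ^ 2 := by
      calc ∑ i, l i * ‖p i - x1‖ ^ 2 ≤ ∑ i, l i * R1 ^ 2 :=
            sum_le_sum fun i _ => mul_le_mul_of_nonneg_left
              (pow_le_pow_left₀ (norm_nonneg _) (hb i) 2) (hl0 i).le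
        _ = R1 ^ 2 := by rw [← sum_mul, hl1, one_mul]
    have h3 : R ^ 2 ≤ R1 ^ 2 := by nlinarith [sq_nonneg ‖∑ i, l i • (p i - x1)‖]
    exact abs_le_of_sq_le_sq' h3 hR1 |>.2
  let p' : Fin 4 → E3 := fun i => p i - x0
  have hR' : ∀ i, ‖p' i‖ = R := hpR
  have hpp' : ∀ i j, ‖p' i - p' j‖ = ‖p i - p j‖ := fun i j => by
    show ‖(p i - x0) - (p j - x0)‖ = _
    rw [sub_sub_sub_cancel_right]
  have ht : ∀ i, 0 ≤ td p' i := by
    have h1 : ∀ i j, 0 ≤ 1 - ‖p' i - p' j‖ ^ 2 := fun i j => by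
      rw [hpp']
      have h2 := hpp i j
      have h3 := norm_nonneg (p i - p j)
      nlinarith
    intro i
    fin_cases i
    · exact h1 0 1
    · exact h1 0 2
    · exact h1 0 3
    · exact h1 1 2
    · exact h1 1 3
    · exact h1 2 3
  have hsum := sum_le hR' (hr3.trans hRr) ht hl0 hl1 hlz
  have hTX : Ts (td p') ≤ X := by
    by_contra hcon
    push Not at hcon
    have h4 : 0 < 4 * R ^ 2 - 1 := by nlinarith
    have h5 : X * (4 * R ^ 2 - 1) < Ts (td p') * (4 * R ^ 2 - 1) :=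
      mul_lt_mul_of_pos_right hcon h4
    nlinarith [mul_nonneg hX0 (sub_nonneg.2 hRr)]
  obtain ⟨Φ, Y, hY0, hY, hRY, hst⟩ := state hR' hR0 ht (by linarith)
  refine ⟨Φ, x0, td p', ht, ?_, hTX, ?_⟩
  · have : R ^ 2 ≤ R1 ^ 2 := by nlinarith
    linarith
  · intro q hq
    have hz : ‖Φ (q - x0)‖ ≤ R := by
      rw [Φ.norm_map, ← dist_eq_norm]; exact hKR hq
    refine ⟨?_, hz.trans hRR, ?_⟩
    · have h1 : ‖Φ (q - x0)‖ ^ 2 ≤ R ^ 2 := pow_le_pow_left₀ (norm_nonneg _) hz 2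
      linarith
    · intro j
      have h1 : ‖Φ (q - x0) - Φ (p' j)‖ ≤ 1 := by
        rw [← map_sub, Φ.norm_map]
        show ‖(q - x0) - (p j - x0)‖ ≤ 1
        rw [sub_sub_sub_cancel_right, ← dist_eq_norm]
        exact hd q hq _ (hpK j)
      have h2 := hst (Φ (q - x0)) j hz h1
      rw [inner_pt] at h2
      refine h2.trans (mul_le_mul_of_nonneg_left ?_ (sq_nonneg _))
      nlinarith

end Pool.Agent.Helper23.CP
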