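import Pool.Agent.Helper23.CP.Config2

/-!
# The quadratic remainder of the affine state: polynomial inequality

generated by gen.py
-/

namespace Pool.Agent.Helper23.CP

open Finset

/-- `E x = 2 (A x - x)` -/
noncomputable def Ev (t : Fin 6 → ℝ) (x : V3) : V3 := (2 : ℝ) • (Av t x - x)

/-- `4 E w - E² σ_j` -/
noncomputable def Cv (t : Fin 6 → ℝ) (j : Fin 4) : V3 :=
  (4 : ℝ) • Ev t (wv t) - Ev t (Ev t (sv j))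

theorem Ev_0 (t : Fin 6 → ℝ) (x : V3) : Ev t x 0 =
    (t 0 - t 1 - t 2 - t 3 - t 4 + t 5) * x 0 + (t 3 - t 2) * x 1 + (t 4 - t 1) * x 2 := by
  simp [Ev, Av, Am, Em, Matrix.mulVec, dotProduct, Fin.sum_univ_three]
  ring

theorem Ev_1 (t : Fin 6 → ℝ) (x : V3) : Ev t x 1 =
    (t 3 - t 2) * x 0 + (- t 0 + t 1 - t 2 - t 3 + t 4 - t 5) * x 1 + (t 5 - t 0) * x 2 := by
  simp [Ev, Av, Am, Em, Matrix.mulVec, dotProduct, Fin.sum_univ_three]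
  ring

theorem Ev_2 (t : Fin 6 → ℝ) (x : V3) : Ev t x 2 =
    (t 4 - t 1) * x 0 + (t 5 - t 0) * x 1 + (- t 0 - t 1 + t 2 + t 3 - t 4 - t 5) * x 2 := by
  simp [Ev, Av, Am, Em, Matrix.mulVec, dotProduct, Fin.sum_univ_three]
  ring

theorem wv_0 (t : Fin 6 → ℝ) : wv t 0 = t 5 - t 0 := by simp [wv]

theorem wv_1 (t : Fin 6 → ℝ) : wv t 1 = t 4 - t 1 := by simp [wv]

theorem wv_2 (t : Fin 6 → ℝ) : wv t 2 = t 3 - t 2 := by simp [wv]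

theorem sv_0_0 : sv 0 0 = 1 := by simp [sv, sg]

theorem sv_0_1 : sv 0 1 = 1 := by simp [sv, sg]

theorem sv_0_2 : sv 0 2 = 1 := by simp [sv, sg]

theorem sv_1_0 : sv 1 0 = 1 := by simp [sv, sg]

theorem sv_1_1 : sv 1 1 = -1 := by simp [sv, sg]

theorem sv_1_2 : sv 1 2 = -1 := by simp [sv, sg]

theorem sv_2_0 : sv 2 0 = -1 := by simp [sv, sg]

theorem sv_2_1 : sv 2 1 = 1 := by simp [sv, sg]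

theorem sv_2_2 : sv 2 2 = -1 := by simp [sv, sg]

theorem sv_3_0 : sv 3 0 = -1 := by simp [sv, sg]

theorem sv_3_1 : sv 3 1 = -1 := by simp [sv, sg]

theorem sv_3_2 : sv 3 2 = 1 := by simp [sv, sg]

theorem cv_0_0 (t : Fin 6 → ℝ) : Cv t 0 0 = (fun x0 x1 x2 x3 x4 x5 : ℝ => (-5 * (x0 ^ 2)) + (5 * (x0 * x1)) + (5 * (x0 * x2)) + (7 * (x0 * x3)) + (7 * (x0 * x4)) + (-2 * (x0 * x5)) + (-4 * (x1 ^ 2)) + (6 * (x1 * x2)) + (-10 * (x1 * x3)) + (-1 * (x1 * x5)) + (-4 * (x2 ^ 2)) + (-10 * (x2 * x4)) + (-1 * (x2 * x5)) + (6 * (x3 * x4)) + (-3 * (x3 * x5)) + (-3 * (x4 * x5)) + (3 * (x5 ^ 2)))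
    (t 0) (t 1) (t 2) (t 3) (t 4) (t 5) := by
  simp only [Cv, PiLp.sub_apply, PiLp.smul_apply, smul_eq_mul, Ev_0, Ev_1, Ev_2, wv_0, wv_1, wv_2,
    sv_0_0, sv_0_1, sv_0_2]
  ring

theorem cv_0_1 (t : Fin 6 → ℝ) : Cv t 0 1 = (fun x0 x1 x2 x3 x4 x5 : ℝ => (-4 * (x0 ^ 2)) + (5 * (x0 * x1)) + (6 * (x0 * x2)) + (-10 * (x0 * x3)) + (-1 * (x0 * x4)) + (-5 * (x1 ^ 2)) + (5 * (x1 * x2)) + (7 * (x1 * x3)) + (-2 * (x1 * x4)) + (7 * (x1 * x5)) + (-4 * (x2 ^ 2)) + (-1 * (x2 * x4)) + (-10 * (x2 * x5)) + (-3 * (x3 * x4)) + (6 * (x3 * x5)) + (3 * (x4 ^ 2)) + (-3 * (x4 * x5)))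
    (t 0) (t 1) (t 2) (t 3) (t 4) (t 5) := by
  simp only [Cv, PiLp.sub_apply, PiLp.smul_apply, smul_eq_mul, Ev_0, Ev_1, Ev_2, wv_0, wv_1, wv_2,
    sv_0_0, sv_0_1, sv_0_2]
  ring

theorem cv_0_2 (t : Fin 6 → ℝ) : Cv t 0 2 = (fun x0 x1 x2 x3 x4 x5 : ℝ => (-4 * (x0 ^ 2)) + (6 * (x0 * x1)) + (5 * (x0 * x2)) + (-1 * (x0 * x3)) + (-10 * (x0 * x4)) + (-4 * (x1 ^ 2)) + (5 * (x1 * x2)) + (-1 * (x1 * x3)) + (-10 * (x1 * x5)) + (-5 * (x2 ^ 2)) + (-2 * (x2 * x3)) + (7 * (x2 * x4)) + (7 * (x2 * x5)) + (3 * (x3 ^ 2)) + (-3 * (x3 * x4)) + (-3 * (x3 * x5)) + (6 * (x4 * x5)))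
    (t 0) (t 1) (t 2) (t 3) (t 4) (t 5) := by
  simp only [Cv, PiLp.sub_apply, PiLp.smul_apply, smul_eq_mul, Ev_0, Ev_1, Ev_2, wv_0, wv_1, wv_2,
    sv_0_0, sv_0_1, sv_0_2]
  ring

theorem pol_0 {x0 x1 x2 x3 x4 x5 : ℝ} (h0 : 0 ≤ x0) (h1 : 0 ≤ x1) (h2 : 0 ≤ x2) (h3 : 0 ≤ x3)
    (h4 : 0 ≤ x4) (h5 : 0 ≤ x5) :
    ((-5 * (x0 ^ 2)) + (5 * (x0 * x1)) + (5 * (x0 * x2)) + (7 * (x0 * x3)) + (7 * (x0 * x4)) + (-2 * (x0 * x5)) + (-4 * (x1 ^ 2)) + (6 * (x1 * x2)) + (-10 * (x1 * x3)) + (-1 * (x1 * x5)) + (-4 * (x2 ^ 2)) + (-10 * (x2 * x4)) + (-1 * (x2 * x5)) + (6 * (x3 * x4)) + (-3 * (x3 * x5)) + (-3 * (x4 * x5)) + (3 * (x5 ^ 2))) ^ 2 +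
    ((-4 * (x0 ^ 2)) + (5 * (x0 * x1)) + (6 * (x0 * x2)) + (-10 * (x0 * x3)) + (-1 * (x0 * x4)) + (-5 * (x1 ^ 2)) + (5 * (x1 * x2)) + (7 * (x1 * x3)) + (-2 * (x1 * x4)) + (7 * (x1 * x5)) + (-4 * (x2 ^ 2)) + (-1 * (x2 * x4)) + (-10 * (x2 * x5)) + (-3 * (x3 * x4)) + (6 * (x3 * x5)) + (3 * (x4 ^ 2)) + (-3 * (x4 * x5))) ^ 2 +
    ((-4 * (x0 ^ 2)) + (6 * (x0 * x1)) + (5 * (x0 * x2)) + (-1 * (x0 * x3)) + (-10 * (x0 * x4)) + (-4 * (x1 ^ 2)) + (5 * (x1 * x2)) + (-1 * (x1 * x3)) + (-10 * (x1 * x5)) + (-5 * (x2 ^ 2)) + (-2 * (x2 * x3)) + (7 * (x2 * x4)) + (7 * (x2 * x5)) + (3 * (x3 ^ 2)) + (-3 * (x3 * x4)) + (-3 * (x3 * x5)) + (6 * (x4 * x5))) ^ 2 ≤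
    (21 / 4 * (x0 + x1 + x2 + x3 + x4 + x5) ^ 2 + 23 / 10 * ((x5 - x0) ^ 2 + (x4 - x1) ^ 2 + (x3 - x2) ^ 2)) ^ 2 := by
  have h : 0 ≤ (1 / 400) * (x0 ^ 4) +
    (5931 / 20) * (x0 ^ 3 * x1) +
    (5931 / 20) * (x0 ^ 3 * x2) +
    (2811 / 20) * (x0 ^ 3 * x3) +
    (2811 / 20) * (x0 ^ 3 * x4) +
    (6909 / 100) * (x0 ^ 3 * x5) +
    (5251 / 200) * (x0 ^ 2 * x1 ^ 2) +
    (6981 / 20) * (x0 ^ 2 * x1 * x2) +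
    (7381 / 20) * (x0 ^ 2 * x1 * x3) +
    (35359 / 100) * (x0 ^ 2 * x1 * x4) +
    (5369 / 20) * (x0 ^ 2 * x1 * x5) +
    (5251 / 200) * (x0 ^ 2 * x2 ^ 2) +
    (35359 / 100) * (x0 ^ 2 * x2 * x3) +
    (7381 / 20) * (x0 ^ 2 * x2 * x4) +
    (5369 / 20) * (x0 ^ 2 * x2 * x5) +
    (19651 / 200) * (x0 ^ 2 * x3 ^ 2) +
    (5061 / 20) * (x0 ^ 2 * x3 * x4) +
    (6089 / 20) * (x0 ^ 2 * x3 * x5) +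
    (19651 / 200) * (x0 ^ 2 * x4 ^ 2) +
    (6089 / 20) * (x0 ^ 2 * x4 * x5) +
    (34963 / 200) * (x0 ^ 2 * x5 ^ 2) +
    (5931 / 20) * (x0 * x1 ^ 3) +
    (6981 / 20) * (x0 * x1 ^ 2 * x2) +
    (7381 / 20) * (x0 * x1 ^ 2 * x3) +
    (5369 / 20) * (x0 * x1 ^ 2 * x4) +
    (35359 / 100) * (x0 * x1 ^ 2 * x5) +
    (6981 / 20) * (x0 * x1 * x2 ^ 2) +
    (6409 / 10) * (x0 * x1 * x2 * x3) +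
    (6409 / 10) * (x0 * x1 * x2 * x4) +
    (6409 / 10) * (x0 * x1 * x2 * x5) +
    (12421 / 20) * (x0 * x1 * x3 ^ 2) +
    (6649 / 10) * (x0 * x1 * x3 * x4) +
    (6649 / 10) * (x0 * x1 * x3 * x5) +
    (4969 / 20) * (x0 * x1 * x4 ^ 2) +
    (16331 / 50) * (x0 * x1 * x4 * x5) +
    (4969 / 20) * (x0 * x1 * x5 ^ 2) +
    (5931 / 20) * (x0 * x2 ^ 3) +
    (5369 / 20) * (x0 * x2 ^ 2 * x3) +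
    (7381 / 20) * (x0 * x2 ^ 2 * x4) +
    (35359 / 100) * (x0 * x2 ^ 2 * x5) +
    (4969 / 20) * (x0 * x2 * x3 ^ 2) +
    (6649 / 10) * (x0 * x2 * x3 * x4) +
    (16331 / 50) * (x0 * x2 * x3 * x5) +
    (12421 / 20) * (x0 * x2 * x4 ^ 2) +
    (6649 / 10) * (x0 * x2 * x4 * x5) +
    (4969 / 20) * (x0 * x2 * x5 ^ 2) +
    (3291 / 20) * (x0 * x3 ^ 3) +
    (5781 / 20) * (x0 * x3 ^ 2 * x4) +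
    (46559 / 100) * (x0 * x3 ^ 2 * x5) +
    (5781 / 20) * (x0 * x3 * x4 ^ 2) +
    (5769 / 10) * (x0 * x3 * x4 * x5) +
    (4569 / 20) * (x0 * x3 * x5 ^ 2) +
    (3291 / 20) * (x0 * x4 ^ 3) +
    (46559 / 100) * (x0 * x4 ^ 2 * x5) +
    (4569 / 20) * (x0 * x4 * x5 ^ 2) +
    (10109 / 100) * (x0 * x5 ^ 3) +
    (1 / 400) * (x1 ^ 4) +
    (5931 / 20) * (x1 ^ 3 * x2) +
    (2811 / 20) * (x1 ^ 3 * x3) +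
    (6909 / 100) * (x1 ^ 3 * x4) +
    (2811 / 20) * (x1 ^ 3 * x5) +
    (5251 / 200) * (x1 ^ 2 * x2 ^ 2) +
    (35359 / 100) * (x1 ^ 2 * x2 * x3) +
    (5369 / 20) * (x1 ^ 2 * x2 * x4) +
    (7381 / 20) * (x1 ^ 2 * x2 * x5) +
    (19651 / 200) * (x1 ^ 2 * x3 ^ 2) +
    (6089 / 20) * (x1 ^ 2 * x3 * x4) +
    (5061 / 20) * (x1 ^ 2 * x3 * x5) +
    (34963 / 200) * (x1 ^ 2 * x4 ^ 2) +
    (6089 / 20) * (x1 ^ 2 * x4 * x5) +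
    (19651 / 200) * (x1 ^ 2 * x5 ^ 2) +
    (5931 / 20) * (x1 * x2 ^ 3) +
    (5369 / 20) * (x1 * x2 ^ 2 * x3) +
    (35359 / 100) * (x1 * x2 ^ 2 * x4) +
    (7381 / 20) * (x1 * x2 ^ 2 * x5) +
    (4969 / 20) * (x1 * x2 * x3 ^ 2) +
    (16331 / 50) * (x1 * x2 * x3 * x4) +
    (6649 / 10) * (x1 * x2 * x3 * x5) +
    (4969 / 20) * (x1 * x2 * x4 ^ 2) +
    (6649 / 10) * (x1 * x2 * x4 * x5) +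
    (12421 / 20) * (x1 * x2 * x5 ^ 2) +
    (3291 / 20) * (x1 * x3 ^ 3) +
    (46559 / 100) * (x1 * x3 ^ 2 * x4) +
    (5781 / 20) * (x1 * x3 ^ 2 * x5) +
    (4569 / 20) * (x1 * x3 * x4 ^ 2) +
    (5769 / 10) * (x1 * x3 * x4 * x5) +
    (5781 / 20) * (x1 * x3 * x5 ^ 2) +
    (10109 / 100) * (x1 * x4 ^ 3) +
    (4569 / 20) * (x1 * x4 ^ 2 * x5) +
    (46559 / 100) * (x1 * x4 * x5 ^ 2) +
    (3291 / 20) * (x1 * x5 ^ 3) +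
    (1 / 400) * (x2 ^ 4) +
    (6909 / 100) * (x2 ^ 3 * x3) +
    (2811 / 20) * (x2 ^ 3 * x4) +
    (2811 / 20) * (x2 ^ 3 * x5) +
    (34963 / 200) * (x2 ^ 2 * x3 ^ 2) +
    (6089 / 20) * (x2 ^ 2 * x3 * x4) +
    (6089 / 20) * (x2 ^ 2 * x3 * x5) +
    (19651 / 200) * (x2 ^ 2 * x4 ^ 2) +
    (5061 / 20) * (x2 ^ 2 * x4 * x5) +
    (19651 / 200) * (x2 ^ 2 * x5 ^ 2) +
    (10109 / 100) * (x2 * x3 ^ 3) +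
    (4569 / 20) * (x2 * x3 ^ 2 * x4) +
    (4569 / 20) * (x2 * x3 ^ 2 * x5) +
    (46559 / 100) * (x2 * x3 * x4 ^ 2) +
    (5769 / 10) * (x2 * x3 * x4 * x5) +
    (46559 / 100) * (x2 * x3 * x5 ^ 2) +
    (3291 / 20) * (x2 * x4 ^ 3) +
    (5781 / 20) * (x2 * x4 ^ 2 * x5) +
    (5781 / 20) * (x2 * x4 * x5 ^ 2) +
    (3291 / 20) * (x2 * x5 ^ 3) +
    (19201 / 400) * (x3 ^ 4) +
    (3531 / 20) * (x3 ^ 3 * x4) +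
    (3531 / 20) * (x3 ^ 3 * x5) +
    (34051 / 200) * (x3 ^ 2 * x4 ^ 2) +
    (7941 / 20) * (x3 ^ 2 * x4 * x5) +
    (34051 / 200) * (x3 ^ 2 * x5 ^ 2) +
    (3531 / 20) * (x3 * x4 ^ 3) +
    (7941 / 20) * (x3 * x4 ^ 2 * x5) +
    (7941 / 20) * (x3 * x4 * x5 ^ 2) +
    (3531 / 20) * (x3 * x5 ^ 3) +
    (19201 / 400) * (x4 ^ 4) +
    (3531 / 20) * (x4 ^ 3 * x5) +
    (34051 / 200) * (x4 ^ 2 * x5 ^ 2) +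
    (3531 / 20) * (x4 * x5 ^ 3) +
    (19201 / 400) * (x5 ^ 4) := by positivity
  nlinarith only [h]

theorem cv_1_0 (t : Fin 6 → ℝ) : Cv t 1 0 = (fun x0 x1 x2 x3 x4 x5 : ℝ => (-5 * (x0 ^ 2)) + (7 * (x0 * x1)) + (7 * (x0 * x2)) + (5 * (x0 * x3)) + (5 * (x0 * x4)) + (-2 * (x0 * x5)) + (6 * (x1 * x2)) + (-10 * (x1 * x3)) + (-3 * (x1 * x5)) + (-10 * (x2 * x4)) + (-3 * (x2 * x5)) + (-4 * (x3 ^ 2)) + (6 * (x3 * x4)) + (-1 * (x3 * x5)) + (-4 * (x4 ^ 2)) + (-1 * (x4 * x5)) + (3 * (x5 ^ 2)))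
    (t 0) (t 1) (t 2) (t 3) (t 4) (t 5) := by
  simp only [Cv, PiLp.sub_apply, PiLp.smul_apply, smul_eq_mul, Ev_0, Ev_1, Ev_2, wv_0, wv_1, wv_2,
    sv_1_0, sv_1_1, sv_1_2]
  ring

theorem cv_1_1 (t : Fin 6 → ℝ) : Cv t 1 1 = (fun x0 x1 x2 x3 x4 x5 : ℝ => (4 * (x0 ^ 2)) + (1 * (x0 * x1)) + (10 * (x0 * x2)) + (-6 * (x0 * x3)) + (-5 * (x0 * x4)) + (-3 * (x1 ^ 2)) + (3 * (x1 * x2)) + (1 * (x1 * x3)) + (2 * (x1 * x4)) + (3 * (x1 * x5)) + (-7 * (x2 * x4)) + (-6 * (x2 * x5)) + (4 * (x3 ^ 2)) + (-5 * (x3 * x4)) + (10 * (x3 * x5)) + (5 * (x4 ^ 2)) + (-7 * (x4 * x5)))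
    (t 0) (t 1) (t 2) (t 3) (t 4) (t 5) := by
  simp only [Cv, PiLp.sub_apply, PiLp.smul_apply, smul_eq_mul, Ev_0, Ev_1, Ev_2, wv_0, wv_1, wv_2,
    sv_1_0, sv_1_1, sv_1_2]
  ring

theorem cv_1_2 (t : Fin 6 → ℝ) : Cv t 1 2 = (fun x0 x1 x2 x3 x4 x5 : ℝ => (4 * (x0 ^ 2)) + (10 * (x0 * x1)) + (1 * (x0 * x2)) + (-5 * (x0 * x3)) + (-6 * (x0 * x4)) + (3 * (x1 * x2)) + (-7 * (x1 * x3)) + (-6 * (x1 * x5)) + (-3 * (x2 ^ 2)) + (2 * (x2 * x3)) + (1 * (x2 * x4)) + (3 * (x2 * x5)) + (5 * (x3 ^ 2)) + (-5 * (x3 * x4)) + (-7 * (x3 * x5)) + (4 * (x4 ^ 2)) + (10 * (x4 * x5)))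
    (t 0) (t 1) (t 2) (t 3) (t 4) (t 5) := by
  simp only [Cv, PiLp.sub_apply, PiLp.smul_apply, smul_eq_mul, Ev_0, Ev_1, Ev_2, wv_0, wv_1, wv_2,
    sv_1_0, sv_1_1, sv_1_2]
  ring

theorem pol_1 {x0 x1 x2 x3 x4 x5 : ℝ} (h0 : 0 ≤ x0) (h1 : 0 ≤ x1) (h2 : 0 ≤ x2) (h3 : 0 ≤ x3)
    (h4 : 0 ≤ x4) (h5 : 0 ≤ x5) :
    ((-5 * (x0 ^ 2)) + (7 * (x0 * x1)) + (7 * (x0 * x2)) + (5 * (x0 * x3)) + (5 * (x0 * x4)) + (-2 * (x0 * x5)) + (6 * (x1 * x2)) + (-10 * (x1 * x3)) + (-3 * (x1 * x5)) + (-10 * (x2 * x4)) + (-3 * (x2 * x5)) + (-4 * (x3 ^ 2)) + (6 * (x3 * x4)) + (-1 * (x3 * x5)) + (-4 * (x4 ^ 2)) + (-1 * (x4 * x5)) + (3 * (x5 ^ 2))) ^ 2 +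
    ((4 * (x0 ^ 2)) + (1 * (x0 * x1)) + (10 * (x0 * x2)) + (-6 * (x0 * x3)) + (-5 * (x0 * x4)) + (-3 * (x1 ^ 2)) + (3 * (x1 * x2)) + (1 * (x1 * x3)) + (2 * (x1 * x4)) + (3 * (x1 * x5)) + (-7 * (x2 * x4)) + (-6 * (x2 * x5)) + (4 * (x3 ^ 2)) + (-5 * (x3 * x4)) + (10 * (x3 * x5)) + (5 * (x4 ^ 2)) + (-7 * (x4 * x5))) ^ 2 +
    ((4 * (x0 ^ 2)) + (10 * (x0 * x1)) + (1 * (x0 * x2)) + (-5 * (x0 * x3)) + (-6 * (x0 * x4)) + (3 * (x1 * x2)) + (-7 * (x1 * x3)) + (-6 * (x1 * x5)) + (-3 * (x2 ^ 2)) + (2 * (x2 * x3)) + (1 * (x2 * x4)) + (3 * (x2 * x5)) + (5 * (x3 ^ 2)) + (-5 * (x3 * x4)) + (-7 * (x3 * x5)) + (4 * (x4 ^ 2)) + (10 * (x4 * x5))) ^ 2 ≤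
    (21 / 4 * (x0 + x1 + x2 + x3 + x4 + x5) ^ 2 + 23 / 10 * ((x5 - x0) ^ 2 + (x4 - x1) ^ 2 + (x3 - x2) ^ 2)) ^ 2 := by
  have h : 0 ≤ (1 / 400) * (x0 ^ 4) +
    (2811 / 20) * (x0 ^ 3 * x1) +
    (2811 / 20) * (x0 ^ 3 * x2) +
    (5931 / 20) * (x0 ^ 3 * x3) +
    (5931 / 20) * (x0 ^ 3 * x4) +
    (6909 / 100) * (x0 ^ 3 * x5) +
    (19651 / 200) * (x0 ^ 2 * x1 ^ 2) +
    (5061 / 20) * (x0 ^ 2 * x1 * x2) +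
    (7381 / 20) * (x0 ^ 2 * x1 * x3) +
    (35359 / 100) * (x0 ^ 2 * x1 * x4) +
    (6089 / 20) * (x0 ^ 2 * x1 * x5) +
    (19651 / 200) * (x0 ^ 2 * x2 ^ 2) +
    (35359 / 100) * (x0 ^ 2 * x2 * x3) +
    (7381 / 20) * (x0 ^ 2 * x2 * x4) +
    (6089 / 20) * (x0 ^ 2 * x2 * x5) +
    (5251 / 200) * (x0 ^ 2 * x3 ^ 2) +
    (6981 / 20) * (x0 ^ 2 * x3 * x4) +
    (5369 / 20) * (x0 ^ 2 * x3 * x5) +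
    (5251 / 200) * (x0 ^ 2 * x4 ^ 2) +
    (5369 / 20) * (x0 ^ 2 * x4 * x5) +
    (34963 / 200) * (x0 ^ 2 * x5 ^ 2) +
    (3291 / 20) * (x0 * x1 ^ 3) +
    (5781 / 20) * (x0 * x1 ^ 2 * x2) +
    (12421 / 20) * (x0 * x1 ^ 2 * x3) +
    (4969 / 20) * (x0 * x1 ^ 2 * x4) +
    (46559 / 100) * (x0 * x1 ^ 2 * x5) +
    (5781 / 20) * (x0 * x1 * x2 ^ 2) +
    (6649 / 10) * (x0 * x1 * x2 * x3) +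
    (6649 / 10) * (x0 * x1 * x2 * x4) +
    (5769 / 10) * (x0 * x1 * x2 * x5) +
    (7381 / 20) * (x0 * x1 * x3 ^ 2) +
    (6409 / 10) * (x0 * x1 * x3 * x4) +
    (6649 / 10) * (x0 * x1 * x3 * x5) +
    (5369 / 20) * (x0 * x1 * x4 ^ 2) +
    (16331 / 50) * (x0 * x1 * x4 * x5) +
    (4569 / 20) * (x0 * x1 * x5 ^ 2) +
    (3291 / 20) * (x0 * x2 ^ 3) +
    (4969 / 20) * (x0 * x2 ^ 2 * x3) +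
    (12421 / 20) * (x0 * x2 ^ 2 * x4) +
    (46559 / 100) * (x0 * x2 ^ 2 * x5) +
    (5369 / 20) * (x0 * x2 * x3 ^ 2) +
    (6409 / 10) * (x0 * x2 * x3 * x4) +
    (16331 / 50) * (x0 * x2 * x3 * x5) +
    (7381 / 20) * (x0 * x2 * x4 ^ 2) +
    (6649 / 10) * (x0 * x2 * x4 * x5) +
    (4569 / 20) * (x0 * x2 * x5 ^ 2) +
    (5931 / 20) * (x0 * x3 ^ 3) +
    (6981 / 20) * (x0 * x3 ^ 2 * x4) +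
    (35359 / 100) * (x0 * x3 ^ 2 * x5) +
    (6981 / 20) * (x0 * x3 * x4 ^ 2) +
    (6409 / 10) * (x0 * x3 * x4 * x5) +
    (4969 / 20) * (x0 * x3 * x5 ^ 2) +
    (5931 / 20) * (x0 * x4 ^ 3) +
    (35359 / 100) * (x0 * x4 ^ 2 * x5) +
    (4969 / 20) * (x0 * x4 * x5 ^ 2) +
    (10109 / 100) * (x0 * x5 ^ 3) +
    (19201 / 400) * (x1 ^ 4) +
    (3531 / 20) * (x1 ^ 3 * x2) +
    (3291 / 20) * (x1 ^ 3 * x3) +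
    (10109 / 100) * (x1 ^ 3 * x4) +
    (3531 / 20) * (x1 ^ 3 * x5) +
    (34051 / 200) * (x1 ^ 2 * x2 ^ 2) +
    (46559 / 100) * (x1 ^ 2 * x2 * x3) +
    (4569 / 20) * (x1 ^ 2 * x2 * x4) +
    (7941 / 20) * (x1 ^ 2 * x2 * x5) +
    (19651 / 200) * (x1 ^ 2 * x3 ^ 2) +
    (4969 / 20) * (x1 ^ 2 * x3 * x4) +
    (5781 / 20) * (x1 ^ 2 * x3 * x5) +
    (34963 / 200) * (x1 ^ 2 * x4 ^ 2) +
    (4569 / 20) * (x1 ^ 2 * x4 * x5) +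
    (34051 / 200) * (x1 ^ 2 * x5 ^ 2) +
    (3531 / 20) * (x1 * x2 ^ 3) +
    (4569 / 20) * (x1 * x2 ^ 2 * x3) +
    (46559 / 100) * (x1 * x2 ^ 2 * x4) +
    (7941 / 20) * (x1 * x2 ^ 2 * x5) +
    (6089 / 20) * (x1 * x2 * x3 ^ 2) +
    (16331 / 50) * (x1 * x2 * x3 * x4) +
    (5769 / 10) * (x1 * x2 * x3 * x5) +
    (6089 / 20) * (x1 * x2 * x4 ^ 2) +
    (5769 / 10) * (x1 * x2 * x4 * x5) +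
    (7941 / 20) * (x1 * x2 * x5 ^ 2) +
    (2811 / 20) * (x1 * x3 ^ 3) +
    (35359 / 100) * (x1 * x3 ^ 2 * x4) +
    (5061 / 20) * (x1 * x3 ^ 2 * x5) +
    (5369 / 20) * (x1 * x3 * x4 ^ 2) +
    (6649 / 10) * (x1 * x3 * x4 * x5) +
    (5781 / 20) * (x1 * x3 * x5 ^ 2) +
    (6909 / 100) * (x1 * x4 ^ 3) +
    (6089 / 20) * (x1 * x4 ^ 2 * x5) +
    (46559 / 100) * (x1 * x4 * x5 ^ 2) +
    (3531 / 20) * (x1 * x5 ^ 3) +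
    (19201 / 400) * (x2 ^ 4) +
    (10109 / 100) * (x2 ^ 3 * x3) +
    (3291 / 20) * (x2 ^ 3 * x4) +
    (3531 / 20) * (x2 ^ 3 * x5) +
    (34963 / 200) * (x2 ^ 2 * x3 ^ 2) +
    (4969 / 20) * (x2 ^ 2 * x3 * x4) +
    (4569 / 20) * (x2 ^ 2 * x3 * x5) +
    (19651 / 200) * (x2 ^ 2 * x4 ^ 2) +
    (5781 / 20) * (x2 ^ 2 * x4 * x5) +
    (34051 / 200) * (x2 ^ 2 * x5 ^ 2) +
    (6909 / 100) * (x2 * x3 ^ 3) +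
    (5369 / 20) * (x2 * x3 ^ 2 * x4) +
    (6089 / 20) * (x2 * x3 ^ 2 * x5) +
    (35359 / 100) * (x2 * x3 * x4 ^ 2) +
    (6649 / 10) * (x2 * x3 * x4 * x5) +
    (46559 / 100) * (x2 * x3 * x5 ^ 2) +
    (2811 / 20) * (x2 * x4 ^ 3) +
    (5061 / 20) * (x2 * x4 ^ 2 * x5) +
    (5781 / 20) * (x2 * x4 * x5 ^ 2) +
    (3531 / 20) * (x2 * x5 ^ 3) +
    (1 / 400) * (x3 ^ 4) +
    (5931 / 20) * (x3 ^ 3 * x4) +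
    (2811 / 20) * (x3 ^ 3 * x5) +
    (5251 / 200) * (x3 ^ 2 * x4 ^ 2) +
    (7381 / 20) * (x3 ^ 2 * x4 * x5) +
    (19651 / 200) * (x3 ^ 2 * x5 ^ 2) +
    (5931 / 20) * (x3 * x4 ^ 3) +
    (7381 / 20) * (x3 * x4 ^ 2 * x5) +
    (12421 / 20) * (x3 * x4 * x5 ^ 2) +
    (3291 / 20) * (x3 * x5 ^ 3) +
    (1 / 400) * (x4 ^ 4) +
    (2811 / 20) * (x4 ^ 3 * x5) +
    (19651 / 200) * (x4 ^ 2 * x5 ^ 2) +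
    (3291 / 20) * (x4 * x5 ^ 3) +
    (19201 / 400) * (x5 ^ 4) := by positivity
  nlinarith only [h]

theorem cv_2_0 (t : Fin 6 → ℝ) : Cv t 2 0 = (fun x0 x1 x2 x3 x4 x5 : ℝ => (-3 * (x0 ^ 2)) + (1 * (x0 * x1)) + (3 * (x0 * x2)) + (1 * (x0 * x3)) + (3 * (x0 * x4)) + (2 * (x0 * x5)) + (4 * (x1 ^ 2)) + (10 * (x1 * x2)) + (-6 * (x1 * x3)) + (-5 * (x1 * x5)) + (-6 * (x2 * x4)) + (-7 * (x2 * x5)) + (4 * (x3 ^ 2)) + (10 * (x3 * x4)) + (-5 * (x3 * x5)) + (-7 * (x4 * x5)) + (5 * (x5 ^ 2)))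
    (t 0) (t 1) (t 2) (t 3) (t 4) (t 5) := by
  simp only [Cv, PiLp.sub_apply, PiLp.smul_apply, smul_eq_mul, Ev_0, Ev_1, Ev_2, wv_0, wv_1, wv_2,
    sv_2_0, sv_2_1, sv_2_2]
  ring

theorem cv_2_1 (t : Fin 6 → ℝ) : Cv t 2 1 = (fun x0 x1 x2 x3 x4 x5 : ℝ => (7 * (x0 * x1)) + (6 * (x0 * x2)) + (-10 * (x0 * x3)) + (-3 * (x0 * x4)) + (-5 * (x1 ^ 2)) + (7 * (x1 * x2)) + (5 * (x1 * x3)) + (-2 * (x1 * x4)) + (5 * (x1 * x5)) + (-3 * (x2 * x4)) + (-10 * (x2 * x5)) + (-4 * (x3 ^ 2)) + (-1 * (x3 * x4)) + (6 * (x3 * x5)) + (3 * (x4 ^ 2)) + (-1 * (x4 * x5)) + (-4 * (x5 ^ 2)))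
    (t 0) (t 1) (t 2) (t 3) (t 4) (t 5) := by
  simp only [Cv, PiLp.sub_apply, PiLp.smul_apply, smul_eq_mul, Ev_0, Ev_1, Ev_2, wv_0, wv_1, wv_2,
    sv_2_0, sv_2_1, sv_2_2]
  ring

theorem cv_2_2 (t : Fin 6 → ℝ) : Cv t 2 2 = (fun x0 x1 x2 x3 x4 x5 : ℝ => (10 * (x0 * x1)) + (3 * (x0 * x2)) + (-7 * (x0 * x3)) + (-6 * (x0 * x4)) + (4 * (x1 ^ 2)) + (1 * (x1 * x2)) + (-5 * (x1 * x3)) + (-6 * (x1 * x5)) + (-3 * (x2 ^ 2)) + (2 * (x2 * x3)) + (3 * (x2 * x4)) + (1 * (x2 * x5)) + (5 * (x3 ^ 2)) + (-7 * (x3 * x4)) + (-5 * (x3 * x5)) + (10 * (x4 * x5)) + (4 * (x5 ^ 2)))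
    (t 0) (t 1) (t 2) (t 3) (t 4) (t 5) := by
  simp only [Cv, PiLp.sub_apply, PiLp.smul_apply, smul_eq_mul, Ev_0, Ev_1, Ev_2, wv_0, wv_1, wv_2,
    sv_2_0, sv_2_1, sv_2_2]
  ring

theorem pol_2 {x0 x1 x2 x3 x4 x5 : ℝ} (h0 : 0 ≤ x0) (h1 : 0 ≤ x1) (h2 : 0 ≤ x2) (h3 : 0 ≤ x3)
    (h4 : 0 ≤ x4) (h5 : 0 ≤ x5) :
    ((-3 * (x0 ^ 2)) + (1 * (x0 * x1)) + (3 * (x0 * x2)) + (1 * (x0 * x3)) + (3 * (x0 * x4)) + (2 * (x0 * x5)) + (4 * (x1 ^ 2)) + (10 * (x1 * x2)) + (-6 * (x1 * x3)) + (-5 * (x1 * x5)) + (-6 * (x2 * x4)) + (-7 * (x2 * x5)) + (4 * (x3 ^ 2)) + (10 * (x3 * x4)) + (-5 * (x3 * x5)) + (-7 * (x4 * x5)) + (5 * (x5 ^ 2))) ^ 2 +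
    ((7 * (x0 * x1)) + (6 * (x0 * x2)) + (-10 * (x0 * x3)) + (-3 * (x0 * x4)) + (-5 * (x1 ^ 2)) + (7 * (x1 * x2)) + (5 * (x1 * x3)) + (-2 * (x1 * x4)) + (5 * (x1 * x5)) + (-3 * (x2 * x4)) + (-10 * (x2 * x5)) + (-4 * (x3 ^ 2)) + (-1 * (x3 * x4)) + (6 * (x3 * x5)) + (3 * (x4 ^ 2)) + (-1 * (x4 * x5)) + (-4 * (x5 ^ 2))) ^ 2 +
    ((10 * (x0 * x1)) + (3 * (x0 * x2)) + (-7 * (x0 * x3)) + (-6 * (x0 * x4)) + (4 * (x1 ^ 2)) + (1 * (x1 * x2)) + (-5 * (x1 * x3)) + (-6 * (x1 * x5)) + (-3 * (x2 ^ 2)) + (2 * (x2 * x3)) + (3 * (x2 * x4)) + (1 * (x2 * x5)) + (5 * (x3 ^ 2)) + (-7 * (x3 * x4)) + (-5 * (x3 * x5)) + (10 * (x4 * x5)) + (4 * (x5 ^ 2))) ^ 2 ≤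
    (21 / 4 * (x0 + x1 + x2 + x3 + x4 + x5) ^ 2 + 23 / 10 * ((x5 - x0) ^ 2 + (x4 - x1) ^ 2 + (x3 - x2) ^ 2)) ^ 2 := by
  have h : 0 ≤ (19201 / 400) * (x0 ^ 4) +
    (3291 / 20) * (x0 ^ 3 * x1) +
    (3531 / 20) * (x0 ^ 3 * x2) +
    (3291 / 20) * (x0 ^ 3 * x3) +
    (3531 / 20) * (x0 ^ 3 * x4) +
    (10109 / 100) * (x0 ^ 3 * x5) +
    (19651 / 200) * (x0 ^ 2 * x1 ^ 2) +
    (5781 / 20) * (x0 ^ 2 * x1 * x2) +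
    (12421 / 20) * (x0 ^ 2 * x1 * x3) +
    (46559 / 100) * (x0 ^ 2 * x1 * x4) +
    (4969 / 20) * (x0 ^ 2 * x1 * x5) +
    (34051 / 200) * (x0 ^ 2 * x2 ^ 2) +
    (46559 / 100) * (x0 ^ 2 * x2 * x3) +
    (7941 / 20) * (x0 ^ 2 * x2 * x4) +
    (4569 / 20) * (x0 ^ 2 * x2 * x5) +
    (19651 / 200) * (x0 ^ 2 * x3 ^ 2) +
    (5781 / 20) * (x0 ^ 2 * x3 * x4) +
    (4969 / 20) * (x0 ^ 2 * x3 * x5) +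
    (34051 / 200) * (x0 ^ 2 * x4 ^ 2) +
    (4569 / 20) * (x0 ^ 2 * x4 * x5) +
    (34963 / 200) * (x0 ^ 2 * x5 ^ 2) +
    (2811 / 20) * (x0 * x1 ^ 3) +
    (5061 / 20) * (x0 * x1 ^ 2 * x2) +
    (7381 / 20) * (x0 * x1 ^ 2 * x3) +
    (6089 / 20) * (x0 * x1 ^ 2 * x4) +
    (35359 / 100) * (x0 * x1 ^ 2 * x5) +
    (5781 / 20) * (x0 * x1 * x2 ^ 2) +
    (6649 / 10) * (x0 * x1 * x2 * x3) +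
    (5769 / 10) * (x0 * x1 * x2 * x4) +
    (6649 / 10) * (x0 * x1 * x2 * x5) +
    (7381 / 20) * (x0 * x1 * x3 ^ 2) +
    (6649 / 10) * (x0 * x1 * x3 * x4) +
    (6409 / 10) * (x0 * x1 * x3 * x5) +
    (4569 / 20) * (x0 * x1 * x4 ^ 2) +
    (16331 / 50) * (x0 * x1 * x4 * x5) +
    (5369 / 20) * (x0 * x1 * x5 ^ 2) +
    (3531 / 20) * (x0 * x2 ^ 3) +
    (4569 / 20) * (x0 * x2 ^ 2 * x3) +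
    (7941 / 20) * (x0 * x2 ^ 2 * x4) +
    (46559 / 100) * (x0 * x2 ^ 2 * x5) +
    (6089 / 20) * (x0 * x2 * x3 ^ 2) +
    (5769 / 10) * (x0 * x2 * x3 * x4) +
    (16331 / 50) * (x0 * x2 * x3 * x5) +
    (7941 / 20) * (x0 * x2 * x4 ^ 2) +
    (5769 / 10) * (x0 * x2 * x4 * x5) +
    (6089 / 20) * (x0 * x2 * x5 ^ 2) +
    (2811 / 20) * (x0 * x3 ^ 3) +
    (5061 / 20) * (x0 * x3 ^ 2 * x4) +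
    (35359 / 100) * (x0 * x3 ^ 2 * x5) +
    (5781 / 20) * (x0 * x3 * x4 ^ 2) +
    (6649 / 10) * (x0 * x3 * x4 * x5) +
    (5369 / 20) * (x0 * x3 * x5 ^ 2) +
    (3531 / 20) * (x0 * x4 ^ 3) +
    (46559 / 100) * (x0 * x4 ^ 2 * x5) +
    (6089 / 20) * (x0 * x4 * x5 ^ 2) +
    (6909 / 100) * (x0 * x5 ^ 3) +
    (1 / 400) * (x1 ^ 4) +
    (2811 / 20) * (x1 ^ 3 * x2) +
    (5931 / 20) * (x1 ^ 3 * x3) +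
    (6909 / 100) * (x1 ^ 3 * x4) +
    (5931 / 20) * (x1 ^ 3 * x5) +
    (19651 / 200) * (x1 ^ 2 * x2 ^ 2) +
    (35359 / 100) * (x1 ^ 2 * x2 * x3) +
    (6089 / 20) * (x1 ^ 2 * x2 * x4) +
    (7381 / 20) * (x1 ^ 2 * x2 * x5) +
    (5251 / 200) * (x1 ^ 2 * x3 ^ 2) +
    (5369 / 20) * (x1 ^ 2 * x3 * x4) +
    (6981 / 20) * (x1 ^ 2 * x3 * x5) +
    (34963 / 200) * (x1 ^ 2 * x4 ^ 2) +
    (5369 / 20) * (x1 ^ 2 * x4 * x5) +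
    (5251 / 200) * (x1 ^ 2 * x5 ^ 2) +
    (3291 / 20) * (x1 * x2 ^ 3) +
    (4969 / 20) * (x1 * x2 ^ 2 * x3) +
    (46559 / 100) * (x1 * x2 ^ 2 * x4) +
    (12421 / 20) * (x1 * x2 ^ 2 * x5) +
    (5369 / 20) * (x1 * x2 * x3 ^ 2) +
    (16331 / 50) * (x1 * x2 * x3 * x4) +
    (6409 / 10) * (x1 * x2 * x3 * x5) +
    (4569 / 20) * (x1 * x2 * x4 ^ 2) +
    (6649 / 10) * (x1 * x2 * x4 * x5) +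
    (7381 / 20) * (x1 * x2 * x5 ^ 2) +
    (5931 / 20) * (x1 * x3 ^ 3) +
    (35359 / 100) * (x1 * x3 ^ 2 * x4) +
    (6981 / 20) * (x1 * x3 ^ 2 * x5) +
    (4969 / 20) * (x1 * x3 * x4 ^ 2) +
    (6409 / 10) * (x1 * x3 * x4 * x5) +
    (6981 / 20) * (x1 * x3 * x5 ^ 2) +
    (10109 / 100) * (x1 * x4 ^ 3) +
    (4969 / 20) * (x1 * x4 ^ 2 * x5) +
    (35359 / 100) * (x1 * x4 * x5 ^ 2) +
    (5931 / 20) * (x1 * x5 ^ 3) +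
    (19201 / 400) * (x2 ^ 4) +
    (10109 / 100) * (x2 ^ 3 * x3) +
    (3531 / 20) * (x2 ^ 3 * x4) +
    (3291 / 20) * (x2 ^ 3 * x5) +
    (34963 / 200) * (x2 ^ 2 * x3 ^ 2) +
    (4569 / 20) * (x2 ^ 2 * x3 * x4) +
    (4969 / 20) * (x2 ^ 2 * x3 * x5) +
    (34051 / 200) * (x2 ^ 2 * x4 ^ 2) +
    (5781 / 20) * (x2 ^ 2 * x4 * x5) +
    (19651 / 200) * (x2 ^ 2 * x5 ^ 2) +
    (6909 / 100) * (x2 * x3 ^ 3) +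
    (6089 / 20) * (x2 * x3 ^ 2 * x4) +
    (5369 / 20) * (x2 * x3 ^ 2 * x5) +
    (46559 / 100) * (x2 * x3 * x4 ^ 2) +
    (6649 / 10) * (x2 * x3 * x4 * x5) +
    (35359 / 100) * (x2 * x3 * x5 ^ 2) +
    (3531 / 20) * (x2 * x4 ^ 3) +
    (5781 / 20) * (x2 * x4 ^ 2 * x5) +
    (5061 / 20) * (x2 * x4 * x5 ^ 2) +
    (2811 / 20) * (x2 * x5 ^ 3) +
    (1 / 400) * (x3 ^ 4) +
    (2811 / 20) * (x3 ^ 3 * x4) +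
    (5931 / 20) * (x3 ^ 3 * x5) +
    (19651 / 200) * (x3 ^ 2 * x4 ^ 2) +
    (7381 / 20) * (x3 ^ 2 * x4 * x5) +
    (5251 / 200) * (x3 ^ 2 * x5 ^ 2) +
    (3291 / 20) * (x3 * x4 ^ 3) +
    (12421 / 20) * (x3 * x4 ^ 2 * x5) +
    (7381 / 20) * (x3 * x4 * x5 ^ 2) +
    (5931 / 20) * (x3 * x5 ^ 3) +
    (19201 / 400) * (x4 ^ 4) +
    (3291 / 20) * (x4 ^ 3 * x5) +
    (19651 / 200) * (x4 ^ 2 * x5 ^ 2) +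
    (2811 / 20) * (x4 * x5 ^ 3) +
    (1 / 400) * (x5 ^ 4) := by positivity
  nlinarith only [h]

theorem cv_3_0 (t : Fin 6 → ℝ) : Cv t 3 0 = (fun x0 x1 x2 x3 x4 x5 : ℝ => (-3 * (x0 ^ 2)) + (3 * (x0 * x1)) + (1 * (x0 * x2)) + (3 * (x0 * x3)) + (1 * (x0 * x4)) + (2 * (x0 * x5)) + (10 * (x1 * x2)) + (-6 * (x1 * x3)) + (-7 * (x1 * x5)) + (4 * (x2 ^ 2)) + (-6 * (x2 * x4)) + (-5 * (x2 * x5)) + (10 * (x3 * x4)) + (-7 * (x3 * x5)) + (4 * (x4 ^ 2)) + (-5 * (x4 * x5)) + (5 * (x5 ^ 2)))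
    (t 0) (t 1) (t 2) (t 3) (t 4) (t 5) := by
  simp only [Cv, PiLp.sub_apply, PiLp.smul_apply, smul_eq_mul, Ev_0, Ev_1, Ev_2, wv_0, wv_1, wv_2,
    sv_3_0, sv_3_1, sv_3_2]
  ring

theorem cv_3_1 (t : Fin 6 → ℝ) : Cv t 3 1 = (fun x0 x1 x2 x3 x4 x5 : ℝ => (3 * (x0 * x1)) + (10 * (x0 * x2)) + (-6 * (x0 * x3)) + (-7 * (x0 * x4)) + (-3 * (x1 ^ 2)) + (1 * (x1 * x2)) + (3 * (x1 * x3)) + (2 * (x1 * x4)) + (1 * (x1 * x5)) + (4 * (x2 ^ 2)) + (-5 * (x2 * x4)) + (-6 * (x2 * x5)) + (-7 * (x3 * x4)) + (10 * (x3 * x5)) + (5 * (x4 ^ 2)) + (-5 * (x4 * x5)) + (4 * (x5 ^ 2)))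
    (t 0) (t 1) (t 2) (t 3) (t 4) (t 5) := by
  simp only [Cv, PiLp.sub_apply, PiLp.smul_apply, smul_eq_mul, Ev_0, Ev_1, Ev_2, wv_0, wv_1, wv_2,
    sv_3_0, sv_3_1, sv_3_2]
  ring

theorem cv_3_2 (t : Fin 6 → ℝ) : Cv t 3 2 = (fun x0 x1 x2 x3 x4 x5 : ℝ => (6 * (x0 * x1)) + (7 * (x0 * x2)) + (-3 * (x0 * x3)) + (-10 * (x0 * x4)) + (7 * (x1 * x2)) + (-3 * (x1 * x3)) + (-10 * (x1 * x5)) + (-5 * (x2 ^ 2)) + (-2 * (x2 * x3)) + (5 * (x2 * x4)) + (5 * (x2 * x5)) + (3 * (x3 ^ 2)) + (-1 * (x3 * x4)) + (-1 * (x3 * x5)) + (-4 * (x4 ^ 2)) + (6 * (x4 * x5)) + (-4 * (x5 ^ 2)))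
    (t 0) (t 1) (t 2) (t 3) (t 4) (t 5) := by
  simp only [Cv, PiLp.sub_apply, PiLp.smul_apply, smul_eq_mul, Ev_0, Ev_1, Ev_2, wv_0, wv_1, wv_2,
    sv_3_0, sv_3_1, sv_3_2]
  ring

theorem pol_3 {x0 x1 x2 x3 x4 x5 : ℝ} (h0 : 0 ≤ x0) (h1 : 0 ≤ x1) (h2 : 0 ≤ x2) (h3 : 0 ≤ x3)
    (h4 : 0 ≤ x4) (h5 : 0 ≤ x5) :
    ((-3 * (x0 ^ 2)) + (3 * (x0 * x1)) + (1 * (x0 * x2)) + (3 * (x0 * x3)) + (1 * (x0 * x4)) + (2 * (x0 * x5)) + (10 * (x1 * x2)) + (-6 * (x1 * x3)) + (-7 * (x1 * x5)) + (4 * (x2 ^ 2)) + (-6 * (x2 * x4)) + (-5 * (x2 * x5)) + (10 * (x3 * x4)) + (-7 * (x3 * x5)) + (4 * (x4 ^ 2)) + (-5 * (x4 * x5)) + (5 * (x5 ^ 2))) ^ 2 +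
    ((3 * (x0 * x1)) + (10 * (x0 * x2)) + (-6 * (x0 * x3)) + (-7 * (x0 * x4)) + (-3 * (x1 ^ 2)) + (1 * (x1 * x2)) + (3 * (x1 * x3)) + (2 * (x1 * x4)) + (1 * (x1 * x5)) + (4 * (x2 ^ 2)) + (-5 * (x2 * x4)) + (-6 * (x2 * x5)) + (-7 * (x3 * x4)) + (10 * (x3 * x5)) + (5 * (x4 ^ 2)) + (-5 * (x4 * x5)) + (4 * (x5 ^ 2))) ^ 2 +
    ((6 * (x0 * x1)) + (7 * (x0 * x2)) + (-3 * (x0 * x3)) + (-10 * (x0 * x4)) + (7 * (x1 * x2)) + (-3 * (x1 * x3)) + (-10 * (x1 * x5)) + (-5 * (x2 ^ 2)) + (-2 * (x2 * x3)) + (5 * (x2 * x4)) + (5 * (x2 * x5)) + (3 * (x3 ^ 2)) + (-1 * (x3 * x4)) + (-1 * (x3 * x5)) + (-4 * (x4 ^ 2)) + (6 * (x4 * x5)) + (-4 * (x5 ^ 2))) ^ 2 ≤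
    (21 / 4 * (x0 + x1 + x2 + x3 + x4 + x5) ^ 2 + 23 / 10 * ((x5 - x0) ^ 2 + (x4 - x1) ^ 2 + (x3 - x2) ^ 2)) ^ 2 := by
  have h : 0 ≤ (19201 / 400) * (x0 ^ 4) +
    (3531 / 20) * (x0 ^ 3 * x1) +
    (3291 / 20) * (x0 ^ 3 * x2) +
    (3531 / 20) * (x0 ^ 3 * x3) +
    (3291 / 20) * (x0 ^ 3 * x4) +
    (10109 / 100) * (x0 ^ 3 * x5) +
    (34051 / 200) * (x0 ^ 2 * x1 ^ 2) +
    (5781 / 20) * (x0 ^ 2 * x1 * x2) +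
    (7941 / 20) * (x0 ^ 2 * x1 * x3) +
    (46559 / 100) * (x0 ^ 2 * x1 * x4) +
    (4569 / 20) * (x0 ^ 2 * x1 * x5) +
    (19651 / 200) * (x0 ^ 2 * x2 ^ 2) +
    (46559 / 100) * (x0 ^ 2 * x2 * x3) +
    (12421 / 20) * (x0 ^ 2 * x2 * x4) +
    (4969 / 20) * (x0 ^ 2 * x2 * x5) +
    (34051 / 200) * (x0 ^ 2 * x3 ^ 2) +
    (5781 / 20) * (x0 ^ 2 * x3 * x4) +
    (4569 / 20) * (x0 ^ 2 * x3 * x5) +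
    (19651 / 200) * (x0 ^ 2 * x4 ^ 2) +
    (4969 / 20) * (x0 ^ 2 * x4 * x5) +
    (34963 / 200) * (x0 ^ 2 * x5 ^ 2) +
    (3531 / 20) * (x0 * x1 ^ 3) +
    (5781 / 20) * (x0 * x1 ^ 2 * x2) +
    (7941 / 20) * (x0 * x1 ^ 2 * x3) +
    (4569 / 20) * (x0 * x1 ^ 2 * x4) +
    (46559 / 100) * (x0 * x1 ^ 2 * x5) +
    (5061 / 20) * (x0 * x1 * x2 ^ 2) +
    (5769 / 10) * (x0 * x1 * x2 * x3) +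
    (6649 / 10) * (x0 * x1 * x2 * x4) +
    (6649 / 10) * (x0 * x1 * x2 * x5) +
    (7941 / 20) * (x0 * x1 * x3 ^ 2) +
    (5769 / 10) * (x0 * x1 * x3 * x4) +
    (5769 / 10) * (x0 * x1 * x3 * x5) +
    (6089 / 20) * (x0 * x1 * x4 ^ 2) +
    (16331 / 50) * (x0 * x1 * x4 * x5) +
    (6089 / 20) * (x0 * x1 * x5 ^ 2) +
    (2811 / 20) * (x0 * x2 ^ 3) +
    (6089 / 20) * (x0 * x2 ^ 2 * x3) +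
    (7381 / 20) * (x0 * x2 ^ 2 * x4) +
    (35359 / 100) * (x0 * x2 ^ 2 * x5) +
    (4569 / 20) * (x0 * x2 * x3 ^ 2) +
    (6649 / 10) * (x0 * x2 * x3 * x4) +
    (16331 / 50) * (x0 * x2 * x3 * x5) +
    (7381 / 20) * (x0 * x2 * x4 ^ 2) +
    (6409 / 10) * (x0 * x2 * x4 * x5) +
    (5369 / 20) * (x0 * x2 * x5 ^ 2) +
    (3531 / 20) * (x0 * x3 ^ 3) +
    (5781 / 20) * (x0 * x3 ^ 2 * x4) +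
    (46559 / 100) * (x0 * x3 ^ 2 * x5) +
    (5061 / 20) * (x0 * x3 * x4 ^ 2) +
    (6649 / 10) * (x0 * x3 * x4 * x5) +
    (6089 / 20) * (x0 * x3 * x5 ^ 2) +
    (2811 / 20) * (x0 * x4 ^ 3) +
    (35359 / 100) * (x0 * x4 ^ 2 * x5) +
    (5369 / 20) * (x0 * x4 * x5 ^ 2) +
    (6909 / 100) * (x0 * x5 ^ 3) +
    (19201 / 400) * (x1 ^ 4) +
    (3291 / 20) * (x1 ^ 3 * x2) +
    (3531 / 20) * (x1 ^ 3 * x3) +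
    (10109 / 100) * (x1 ^ 3 * x4) +
    (3291 / 20) * (x1 ^ 3 * x5) +
    (19651 / 200) * (x1 ^ 2 * x2 ^ 2) +
    (46559 / 100) * (x1 ^ 2 * x2 * x3) +
    (4969 / 20) * (x1 ^ 2 * x2 * x4) +
    (12421 / 20) * (x1 ^ 2 * x2 * x5) +
    (34051 / 200) * (x1 ^ 2 * x3 ^ 2) +
    (4569 / 20) * (x1 ^ 2 * x3 * x4) +
    (5781 / 20) * (x1 ^ 2 * x3 * x5) +
    (34963 / 200) * (x1 ^ 2 * x4 ^ 2) +
    (4969 / 20) * (x1 ^ 2 * x4 * x5) +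
    (19651 / 200) * (x1 ^ 2 * x5 ^ 2) +
    (2811 / 20) * (x1 * x2 ^ 3) +
    (6089 / 20) * (x1 * x2 ^ 2 * x3) +
    (35359 / 100) * (x1 * x2 ^ 2 * x4) +
    (7381 / 20) * (x1 * x2 ^ 2 * x5) +
    (4569 / 20) * (x1 * x2 * x3 ^ 2) +
    (16331 / 50) * (x1 * x2 * x3 * x4) +
    (6649 / 10) * (x1 * x2 * x3 * x5) +
    (5369 / 20) * (x1 * x2 * x4 ^ 2) +
    (6409 / 10) * (x1 * x2 * x4 * x5) +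
    (7381 / 20) * (x1 * x2 * x5 ^ 2) +
    (3531 / 20) * (x1 * x3 ^ 3) +
    (46559 / 100) * (x1 * x3 ^ 2 * x4) +
    (5781 / 20) * (x1 * x3 ^ 2 * x5) +
    (6089 / 20) * (x1 * x3 * x4 ^ 2) +
    (6649 / 10) * (x1 * x3 * x4 * x5) +
    (5061 / 20) * (x1 * x3 * x5 ^ 2) +
    (6909 / 100) * (x1 * x4 ^ 3) +
    (5369 / 20) * (x1 * x4 ^ 2 * x5) +
    (35359 / 100) * (x1 * x4 * x5 ^ 2) +
    (2811 / 20) * (x1 * x5 ^ 3) +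
    (1 / 400) * (x2 ^ 4) +
    (6909 / 100) * (x2 ^ 3 * x3) +
    (5931 / 20) * (x2 ^ 3 * x4) +
    (5931 / 20) * (x2 ^ 3 * x5) +
    (34963 / 200) * (x2 ^ 2 * x3 ^ 2) +
    (5369 / 20) * (x2 ^ 2 * x3 * x4) +
    (5369 / 20) * (x2 ^ 2 * x3 * x5) +
    (5251 / 200) * (x2 ^ 2 * x4 ^ 2) +
    (6981 / 20) * (x2 ^ 2 * x4 * x5) +
    (5251 / 200) * (x2 ^ 2 * x5 ^ 2) +
    (10109 / 100) * (x2 * x3 ^ 3) +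
    (4969 / 20) * (x2 * x3 ^ 2 * x4) +
    (4969 / 20) * (x2 * x3 ^ 2 * x5) +
    (35359 / 100) * (x2 * x3 * x4 ^ 2) +
    (6409 / 10) * (x2 * x3 * x4 * x5) +
    (35359 / 100) * (x2 * x3 * x5 ^ 2) +
    (5931 / 20) * (x2 * x4 ^ 3) +
    (6981 / 20) * (x2 * x4 ^ 2 * x5) +
    (6981 / 20) * (x2 * x4 * x5 ^ 2) +
    (5931 / 20) * (x2 * x5 ^ 3) +
    (19201 / 400) * (x3 ^ 4) +
    (3291 / 20) * (x3 ^ 3 * x4) +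
    (3291 / 20) * (x3 ^ 3 * x5) +
    (19651 / 200) * (x3 ^ 2 * x4 ^ 2) +
    (12421 / 20) * (x3 ^ 2 * x4 * x5) +
    (19651 / 200) * (x3 ^ 2 * x5 ^ 2) +
    (2811 / 20) * (x3 * x4 ^ 3) +
    (7381 / 20) * (x3 * x4 ^ 2 * x5) +
    (7381 / 20) * (x3 * x4 * x5 ^ 2) +
    (2811 / 20) * (x3 * x5 ^ 3) +
    (1 / 400) * (x4 ^ 4) +
    (5931 / 20) * (x4 ^ 3 * x5) +
    (5251 / 200) * (x4 ^ 2 * x5 ^ 2) +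
    (5931 / 20) * (x4 * x5 ^ 3) +
    (1 / 400) * (x5 ^ 4) := by positivity
  nlinarith only [h]

end Pool.Agent.Helper23.CP
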