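import Pool.Agent.Helper23.CP.Config4
import Pool.Agent.Helper23.CP.Pol

/-!
# The configuration lemma with the sharp quadratic residual
-/

namespace Pool.Agent.Helper23.CP

open Finset

theorem Cv_le (t : Fin 6 → ℝ) (ht : ∀ i, 0 ≤ t i) (j : Fin 4) :
    ‖Cv t j‖ ≤ 21 / 4 * Ts t ^ 2 + 23 / 10 * ‖wv t‖ ^ 2 := by
  have hr : 0 ≤ 21 / 4 * Ts t ^ 2 + 23 / 10 * ‖wv t‖ ^ 2 := by positivity
  refine (abs_le_of_sq_le_sq' ?_ hr).2
  rw [nsq (Cv t j), nsq (wv t), wv_0, wv_1, wv_2]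
  unfold Ts
  fin_cases j
  · show (Cv t 0 0) ^ 2 + (Cv t 0 1) ^ 2 + (Cv t 0 2) ^ 2 ≤ _
    rw [cv_0_0, cv_0_1, cv_0_2]
    exact pol_0 (ht 0) (ht 1) (ht 2) (ht 3) (ht 4) (ht 5)
  · show (Cv t 1 0) ^ 2 + (Cv t 1 1) ^ 2 + (Cv t 1 2) ^ 2 ≤ _
    rw [cv_1_0, cv_1_1, cv_1_2]
    exact pol_1 (ht 0) (ht 1) (ht 2) (ht 3) (ht 4) (ht 5)
  · show (Cv t 2 0) ^ 2 + (Cv t 2 1) ^ 2 + (Cv t 2 2) ^ 2 ≤ _
    rw [cv_2_0, cv_2_1, cv_2_2]
    exact pol_2 (ht 0) (ht 1) (ht 2) (ht 3) (ht 4) (ht 5)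
  · show (Cv t 3 0) ^ 2 + (Cv t 3 1) ^ 2 + (Cv t 3 2) ^ 2 ≤ _
    rw [cv_3_0, cv_3_1, cv_3_2]
    exact pol_3 (ht 0) (ht 1) (ht 2) (ht 3) (ht 4) (ht 5)

theorem inner_Ev (t : Fin 6 → ℝ) (v : OrthonormalBasis (Fin 3) ℝ V3) (s : Fin 3 → ℝ)
    (hv : ∀ i (x : V3), bil (Am t) x (v i) = s i ^ 2 * inner ℝ x (v i)) (x : V3) (i : Fin 3) :
    inner ℝ (v i) (Ev t x) = 2 * (s i ^ 2 - 1) * inner ℝ (v i) x := by
  unfold Ev
  rw [real_inner_smul_right, inner_sub_right, ← op_op t v s hv, inner_op, inner_op]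
  ring

/-- the last numerical step -/
theorem num_last {T ν W c y κ : ℝ} (hT0 : 0 ≤ T) (hT : T ≤ 18 / 100) (hν : ν = T / (2 - T))
    (hW0 : 0 ≤ W) (hW : W ≤ T ^ 2) (hc : c ≤ 21 / 4 * T ^ 2 + 23 / 10 * W)
    (hy : (1 - ν) * y ≤ T) (hy0 : 0 ≤ y)
    (hκ0 : 0 ≤ κ) (hκ : κ ≤ 21656 / 100000) (hyW : W ≤ (1 + ν) ^ 2 * y ^ 2) :
    κ * (4 / (2 - ν) ^ 2 * (1 / 16 * c) + ν ^ 2 / (2 - ν) * y) - y ^ 2 / 32 ≤
      (711 / 10000 + 133 / 1000 * T) * T ^ 2 := by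
  have hd : 0 < 2 - T := by linarith
  have hν0 : 0 ≤ ν := by rw [hν]; exact div_nonneg hT0 hd.le
  have e1 : ν * (2 - T) = T := by rw [hν]; exact div_mul_cancel₀ _ hd.ne'
  have hν1 : ν ≤ 55 / 100 * T := by nlinarith
  have hν2 : ν ≤ 1 / 10 := by linarith
  have g1 : 4 / (2 - ν) ^ 2 ≤ 1 + ν + ν ^ 2 := by
    rw [div_le_iff₀ (by nlinarith)]
    nlinarith [mul_nonneg hν0 hν0, mul_nonneg (mul_nonneg hν0 hν0) hν0,
      mul_nonneg (mul_nonneg hν0 hν0) (sub_nonneg.2 hν2)]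
  have g2 : ν ^ 2 / (2 - ν) * y ≤ ν ^ 2 * T * (1 / 2 * (1 + 17 / 10 * ν)) := by
    have h1 : 0 < (2 - ν) * (1 - ν) := by nlinarith
    have h2 : y ≤ T / (1 - ν) := by
      rw [le_div_iff₀ (by linarith)]; linarith
    have h3 : 1 / ((2 - ν) * (1 - ν)) ≤ 1 / 2 * (1 + 17 / 10 * ν) := by
      rw [div_le_iff₀ h1]
      nlinarith [mul_nonneg hν0 (sub_nonneg.2 hν2), mul_nonneg (mul_nonneg hν0 hν0) (sub_nonneg.2 hν2)]
    calc ν ^ 2 / (2 - ν) * y ≤ ν ^ 2 / (2 - ν) * (T / (1 - ν)) :=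
          mul_le_mul_of_nonneg_left h2 (div_nonneg (sq_nonneg _) (by linarith))
      _ = ν ^ 2 * T * (1 / ((2 - ν) * (1 - ν))) := by
          have : 2 - ν ≠ 0 := by linarith
          have : 1 - ν ≠ 0 := by linarith
          field_simp
      _ ≤ ν ^ 2 * T * (1 / 2 * (1 + 17 / 10 * ν)) :=
          mul_le_mul_of_nonneg_left h3 (mul_nonneg (sq_nonneg _) hT0)
  have g3 : (1 - 2 * ν) * W ≤ y ^ 2 := by
    have h1 : (1 - 2 * ν) * (1 + ν) ^ 2 ≤ 1 := by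
      nlinarith [mul_nonneg hν0 hν0, mul_nonneg (mul_nonneg hν0 hν0) hν0]
    have h2 : (1 - 2 * ν) * W ≤ (1 - 2 * ν) * ((1 + ν) ^ 2 * y ^ 2) :=
      mul_le_mul_of_nonneg_left hyW (by linarith)
    nlinarith [sq_nonneg y, mul_nonneg (sub_nonneg.2 h1) (sq_nonneg y)]
  have hc0 : 0 ≤ 21 / 4 * T ^ 2 + 23 / 10 * W := by positivity
  have hq0 : 0 ≤ 4 / (2 - ν) ^ 2 := by positivity
  have a1 : 4 / (2 - ν) ^ 2 * (1 / 16 * c) ≤
      (1 + ν + ν ^ 2) * (1 / 16 * (21 / 4 * T ^ 2 + 23 / 10 * W)) := by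
    have h4 : 4 / (2 - ν) ^ 2 * (1 / 16 * c) ≤
        4 / (2 - ν) ^ 2 * (1 / 16 * (21 / 4 * T ^ 2 + 23 / 10 * W)) :=
      mul_le_mul_of_nonneg_left (by linarith) hq0
    exact h4.trans (mul_le_mul_of_nonneg_right g1 (by positivity))
  have a2 : κ * (4 / (2 - ν) ^ 2 * (1 / 16 * c) + ν ^ 2 / (2 - ν) * y) ≤
      21656 / 100000 * ((1 + ν + ν ^ 2) * (1 / 16 * (21 / 4 * T ^ 2 + 23 / 10 * W)) +
        ν ^ 2 * T * (1 / 2 * (1 + 17 / 10 * ν))) := by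
    have h5 : 4 / (2 - ν) ^ 2 * (1 / 16 * c) + ν ^ 2 / (2 - ν) * y ≤
        (1 + ν + ν ^ 2) * (1 / 16 * (21 / 4 * T ^ 2 + 23 / 10 * W)) +
          ν ^ 2 * T * (1 / 2 * (1 + 17 / 10 * ν)) := add_le_add a1 g2
    have h6 : 0 ≤ (1 + ν + ν ^ 2) * (1 / 16 * (21 / 4 * T ^ 2 + 23 / 10 * W)) +
          ν ^ 2 * T * (1 / 2 * (1 + 17 / 10 * ν)) := by positivity
    exact (mul_le_mul_of_nonneg_left h5 hκ0).trans (mul_le_mul_of_nonneg_right hκ h6)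
  -- everything in `T`
  have b1 : ν * W ≤ 55 / 100 * T * T ^ 2 := mul_le_mul hν1 hW hW0 (by positivity)
  have b2 : ν ^ 2 ≤ (55 / 100 * T) ^ 2 := pow_le_pow_left₀ hν0 hν1 2
  have b3 : ν ^ 2 * W ≤ (55 / 100 * T) ^ 2 * T ^ 2 := mul_le_mul b2 hW hW0 (by positivity)
  have b4 : ν * T ^ 2 ≤ 55 / 100 * T * T ^ 2 := mul_le_mul_of_nonneg_right hν1 (sq_nonneg _)
  have b5 : ν ^ 2 * T ^ 2 ≤ (55 / 100 * T) ^ 2 * T ^ 2 :=
    mul_le_mul_of_nonneg_right b2 (sq_nonneg _)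
  have b6 : ν ^ 2 * T ≤ (55 / 100 * T) ^ 2 * T := mul_le_mul_of_nonneg_right b2 hT0
  have b7 : ν ^ 2 * T * ν ≤ (55 / 100 * T) ^ 2 * T * (1 / 10) :=
    mul_le_mul b6 hν2 hν0 (by positivity)
  have b8 : T ^ 2 * T ^ 2 ≤ 18 / 100 * (T * T ^ 2) := by
    have : T * (T * T ^ 2) ≤ 18 / 100 * (T * T ^ 2) :=
      mul_le_mul_of_nonneg_right hT (by positivity)
    nlinarith
  nlinarith [mul_nonneg hT0 (sq_nonneg T)]

/-- **exact state inequality**, sharp residual -/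
theorem state2 {p : Fin 4 → E3} {R : ℝ} (hR : ∀ i, ‖p i‖ = R) (hR0 : 0 ≤ R)
    (hR6 : R ≤ 6124 / 10000)
    (ht : ∀ i, 0 ≤ td p i) (hT : Ts (td p) ≤ 18 / 100) :
    ∃ (Φ : E3 ≃ₗᵢ[ℝ] V3) (Y : ℝ), 0 ≤ Y ∧ Y ≤ Ts (td p) ^ 2 / (1 - Ts (td p)) ∧
      R ^ 2 = (6 - Ts (td p)) / 16 + Y / 32 ∧
      ∀ (z : V3) (j : Fin 4), ‖z‖ ≤ R → ‖z - Φ (p j)‖ ≤ 1 →
        ‖z‖ ^ 2 + (6 - Ts (td p)) / 16 - 1 - 2 * inner ℝ z (pt (td p) j) ≤
          (711 / 10000 + 133 / 1000 * Ts (td p)) * Ts (td p) ^ 2 := by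
  have hT1 : Ts (td p) < 1 := by linarith
  obtain ⟨Φ, v, s, y, hs0, hlo, hhi, hv, hy, hΦ⟩ := frame p hR ht hT1
  set t := td p with htd
  have hT0 : 0 ≤ Ts t := by
    unfold Ts; linarith [ht 0, ht 1, ht 2, ht 3, ht 4, ht 5]
  have h22 : Real.sqrt 2 ^ 2 = 2 := Real.sq_sqrt (by norm_num)
  have h2 : (0 : ℝ) < Real.sqrt 2 := Real.sqrt_pos.2 (by norm_num)
  have hSS : ∀ x, op v s (op v s x) = Av t x := op_op t v s hv
  -- w = S y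
  have hw : wv t = op v s y := by
    apply ext_v v
    intro i
    rw [← real_inner_comm, ← hy (v i), ← op_symm]
    rw [real_inner_comm]
  have hwi : ∀ i, inner ℝ (v i) (wv t) = s i * inner ℝ (v i) y := by
    intro i; rw [hw, inner_op]
  -- |y|² ≤ T²/(1-T)
  have hyw : (1 - Ts t) * ‖y‖ ^ 2 ≤ Ts t ^ 2 := by
    refine le_trans ?_ (wv_le t ht)
    rw [hw, norm_sq_eq v, norm_sq_eq v (op v s y), mul_sum]
    refine sum_le_sum (fun i _ => ?_)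
    rw [inner_op, mul_pow]
    exact mul_le_mul_of_nonneg_right (hlo i) (sq_nonneg _)
  have hY : ‖y‖ ^ 2 ≤ Ts t ^ 2 / (1 - Ts t) := by
    rw [le_div_iff₀ (by linarith)]
    linarith
  -- R²
  have hRR : R ^ 2 = (6 - Ts t) / 16 + ‖y‖ ^ 2 / 32 := by
    have h1 : ‖Φ (p 0)‖ = R := by rw [Φ.norm_map, hR]
    rw [hΦ 0] at h1
    have h3 : R ^ 2 = (Real.sqrt 2 / 4) ^ 2 * ‖op v s (sv 0) - (1 / 2 : ℝ) • y‖ ^ 2 := by
      rw [← h1, norm_smul, mul_pow, Real.norm_eq_abs, sq_abs]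
    have h4 : ‖op v s (sv 0) - (1 / 2 : ℝ) • y‖ ^ 2 = ‖op v s (sv 0)‖ ^ 2 -
        inner ℝ (wv t) (sv 0) + ‖y‖ ^ 2 / 4 := by
      rw [norm_sub_sq_real, real_inner_smul_right, norm_smul, mul_pow,
        real_inner_comm, hy (sv 0)]
      rw [Real.norm_eq_abs, sq_abs]
      ring
    have h5 : ‖op v s (sv 0)‖ ^ 2 = bil (Am t) (sv 0) (sv 0) := by
      rw [← real_inner_self_eq_norm_sq, op_symm, hSS, bil_eq]
      rfl
    have h6 : bil (Am t) (sv 0) (sv 0) - inner ℝ (wv t) (sv 0) = 3 - Ts t / 2 := by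
      rw [bil_Am, nsq, PiLp.inner_apply]
      simp [Fin.sum_univ_three, sv, sg, wv, Ts]
      ring
    rw [h3, h4, h5]
    have h7 : (Real.sqrt 2 / 4) ^ 2 = 1 / 8 := by nlinarith [h22]
    rw [h7]
    linarith
  refine ⟨Φ, ‖y‖ ^ 2, sq_nonneg _, hY, hRR, ?_⟩
  intro z j hz hzj
  set ν := Ts t / (2 - Ts t) with hν
  have hν0 : 0 ≤ ν := div_nonneg hT0 (by linarith)
  have hν2 : ν ≤ 1 / 10 := by
    rw [hν, div_le_iff₀ (by linarith)]; linarith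
  have hsν : ∀ i, |s i - 1| ≤ ν := fun i => s_sub_one hT0 hT1 (hs0 i) (hlo i) (hhi i)
  -- the residual vector
  set ζ := y - (op v s (sv j) - sv j) with hζ
  have hres : Φ (p j) = pt t j + (Real.sqrt 2 / 8) • (op v s ζ - ζ) := by
    rw [hΦ j]
    unfold pt
    rw [← hSS, hw]
    have e : op v s ζ = op v s y - op v s (op v s (sv j)) + op v s (sv j) := by
      apply ext_v v
      intro i
      simp only [hζ, inner_op, inner_sub_right, inner_add_right]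
      ring
    rw [e, hζ]
    module
  have hin : 2 * inner ℝ z (Φ (p j)) = 2 * inner ℝ z (pt t j) + Real.sqrt 2 / 4 *
      inner ℝ z (op v s ζ - ζ) := by
    rw [hres, inner_add_right, real_inner_smul_right]
    ring
  have hexp : ‖z‖ ^ 2 + R ^ 2 - 2 * inner ℝ z (Φ (p j)) ≤ 1 := by
    have h1 : ‖z - Φ (p j)‖ ^ 2 ≤ 1 := by
      have := norm_nonneg (z - Φ (p j))
      nlinarith
    rw [norm_sub_sq_real, Φ.norm_map, hR] at h1
    linarith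
  -- decomposition
  have hdec : op v s ζ - ζ = op v (fun i => 4 / (s i + 1) ^ 2) ((1 / 16 : ℝ) • Cv t j) -
      op v (fun i => (s i - 1) ^ 2 / (s i + 1)) y := by
    apply ext_v v
    intro i
    have hs1 : s i + 1 ≠ 0 := by linarith [hs0 i]
    simp only [inner_sub_right, inner_op, real_inner_smul_right, Cv, hζ,
      inner_Ev t v s hv, hwi]
    field_simp
    ring
  have hf1 : ∀ i, |4 / (s i + 1) ^ 2| ≤ 4 / (2 - ν) ^ 2 := by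
    intro i
    have h1 := (abs_le.1 (hsν i)).1
    rw [abs_of_nonneg (by positivity)]
    have h3 : (2 - ν) ^ 2 ≤ (s i + 1) ^ 2 := pow_le_pow_left₀ (by linarith) (by linarith) 2
    exact div_le_div_of_nonneg_left (by norm_num) (by nlinarith) h3
  have hf2 : ∀ i, |(s i - 1) ^ 2 / (s i + 1)| ≤ ν ^ 2 / (2 - ν) := by
    intro i
    have h1 := (abs_le.1 (hsν i)).1
    have h3 : 0 < s i + 1 := by linarith [hs0 i]
    rw [abs_of_nonneg (by positivity)]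
    have h4 : (s i - 1) ^ 2 ≤ ν ^ 2 := by
      rw [← sq_abs (s i - 1)]; exact pow_le_pow_left₀ (abs_nonneg _) (hsν i) 2
    exact div_le_div₀ (sq_nonneg _) h4 (by linarith) (by linarith)
  have hnorm : ‖op v s ζ - ζ‖ ≤ 4 / (2 - ν) ^ 2 * (1 / 16 * ‖Cv t j‖) + ν ^ 2 / (2 - ν) * ‖y‖ := by
    rw [hdec]
    refine (norm_sub_le _ _).trans (add_le_add ?_ ?_)
    · refine (norm_op_le v _ (by positivity) hf1 _).trans (le_of_eq ?_)
      rw [norm_smul, Real.norm_eq_abs, abs_of_pos (by norm_num : (0 : ℝ) < 1 / 16)]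
    · exact norm_op_le v _ (div_nonneg (sq_nonneg _) (by linarith)) hf2 _
  have hWy : ‖wv t‖ ^ 2 ≤ (1 + ν) ^ 2 * ‖y‖ ^ 2 := by
    rw [hw, norm_sq_eq v, norm_sq_eq v y, mul_sum]
    refine sum_le_sum (fun i _ => ?_)
    rw [inner_op, mul_pow]
    refine mul_le_mul_of_nonneg_right ?_ (sq_nonneg _)
    have h1 := (abs_le.1 (hsν i)).2
    exact pow_le_pow_left₀ (hs0 i).le (by linarith) 2
  have hyT : (1 - ν) * ‖y‖ ≤ Ts t := by
    have h1 : ((1 - ν) * ‖y‖) ^ 2 ≤ Ts t ^ 2 := by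
      refine le_trans ?_ (wv_le t ht)
      rw [hw, mul_pow, norm_sq_eq v, norm_sq_eq v (op v s y), mul_sum]
      refine sum_le_sum (fun i _ => ?_)
      rw [inner_op, mul_pow]
      refine mul_le_mul_of_nonneg_right ?_ (sq_nonneg _)
      have h1 := (abs_le.1 (hsν i)).1
      exact pow_le_pow_left₀ (by linarith) (by linarith) 2
    exact (abs_le_of_sq_le_sq' h1 hT0).2
  have hsq2 : Real.sqrt 2 ≤ 14143 / 10000 := by
    rw [Real.sqrt_le_left (by norm_num)]; norm_num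
  have hκ : Real.sqrt 2 / 4 * R ≤ 21656 / 100000 := by
    have : Real.sqrt 2 / 4 * R ≤ (14143 / 10000) / 4 * (6124 / 10000) :=
      mul_le_mul (by linarith) hR6 hR0 (by norm_num)
    exact this.trans (by norm_num)
  have hfin := num_last (T := Ts t) (ν := ν) (W := ‖wv t‖ ^ 2) (c := ‖Cv t j‖) (y := ‖y‖)
    (κ := Real.sqrt 2 / 4 * R) hT0 hT hν (sq_nonneg _) (wv_le t ht) (Cv_le t ht j) hyT
    (norm_nonneg _) (by positivity) hκ hWy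
  have hc : Real.sqrt 2 / 4 * inner ℝ z (op v s ζ - ζ) ≤ Real.sqrt 2 / 4 * R *
      (4 / (2 - ν) ^ 2 * (1 / 16 * ‖Cv t j‖) + ν ^ 2 / (2 - ν) * ‖y‖) := by
    rw [mul_assoc]
    refine mul_le_mul_of_nonneg_left ?_ (by positivity)
    refine (real_inner_le_norm _ _).trans ?_
    exact mul_le_mul hz hnorm (norm_nonneg _) hR0
  linarith

end Pool.Agent.Helper23.CP
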