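import Pool.Agent.Helper23.CP.Config5

/-!
# The configuration lemma for a body, sharp residual
-/

namespace Pool.Agent.Helper23.CP

open Finset

/-- **CONFIGURATION LEMMA**, sharp residual. `K` compact, of diameter at most one, in no ball of
radius `r0` but in a ball of radius `R1`. -/
theorem config2 {K : Set E3} (hK : IsCompact K) (hd : ∀ x ∈ K, ∀ y ∈ K, dist x y ≤ 1)
    {r0 R1 X : ℝ} (hr0 : 0 ≤ r0) (hr3 : 1 / 3 ≤ r0 ^ 2) (hno : ¬ ∃ x0, K ⊆ Metric.closedBall x0 r0)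
    (hin : ∃ x1, K ⊆ Metric.closedBall x1 R1) (hR16 : R1 ≤ 6124 / 10000)
    (hX0 : 0 ≤ X) (hX1 : X ≤ 18 / 100)
    (hX : 3 - 8 * r0 ^ 2 ≤ X * (4 * r0 ^ 2 - 1)) :
    ∃ (Φ : E3 ≃ₗᵢ[ℝ] V3) (x0 : E3) (t : Fin 6 → ℝ), (∀ i, 0 ≤ t i) ∧
      6 - 16 * R1 ^ 2 ≤ Ts t ∧ Ts t ≤ X ∧
      ∀ q ∈ K, ‖Φ (q - x0)‖ ^ 2 ≤ (6 - Ts t) / 16 + Ts t ^ 2 / (1 - Ts t) / 32 ∧
        ‖Φ (q - x0)‖ ≤ R1 ∧
        ∀ j, ‖Φ (q - x0)‖ ^ 2 + (6 - Ts t) / 16 - 1 - 2 * (Real.sqrt 2 / 4 *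
          ∑ k, Φ (q - x0) k * Ct t j k) ≤
            (711 / 10000 + 133 / 1000 * Ts t) * Ts t ^ 2 := by
  obtain ⟨x0, R, p, l, hrR, hKR, hpK, hpR, hl0, hl1, hlz, hpp⟩ := exists_contact hK hd hr0 hr3 hno
  have hR0 : 0 ≤ R := hr0.trans hrR.le
  have hRr : r0 ^ 2 ≤ R ^ 2 := by nlinarith
  have hRR : R ≤ R1 := by
    obtain ⟨x1, hx1⟩ := hin
    have hvar := var_id p l hl1 x1
    have hvar0 := var_id p l hl1 x0
    rw [hlz, norm_zero] at hvar0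
    have e0 : ∑ i, l i * ‖p i - x0‖ ^ 2 = R ^ 2 := by
      simp only [hpR]; rw [← sum_mul, hl1, one_mul]
    have hb : ∀ i, ‖p i - x1‖ ≤ R1 := fun i => by
      have := hx1 (hpK i); rwa [Metric.mem_closedBall, dist_eq_norm] at this
    have hR1 : 0 ≤ R1 := (norm_nonneg _).trans (hb 0)
    have e1 : ∑ i, l i * ‖p i - x1‖ ^ 2 ≤ R1 ^ 2 := by
      calc ∑ i, l i * ‖p i - x1‖ ^ 2 ≤ ∑ i, l i * R1 ^ 2 :=
            sum_le_sum fun i _ => mul_le_mul_of_nonneg_left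
              (pow_le_pow_left₀ (norm_nonneg _) (hb i) 2) (hl0 i).le
        _ = R1 ^ 2 := by rw [← sum_mul, hl1, one_mul]
    have h3 : R ^ 2 ≤ R1 ^ 2 := by nlinarith [sq_nonneg ‖∑ i, l i • (p i - x1)‖]
    exact abs_le_of_sq_le_sq' h3 hR1 |>.2
  let p' : Fin 4 → E3 := fun i => p i - x0
  have hR' : ∀ i, ‖p' i‖ = R := hpR
  have hpp' : ∀ i j, ‖p' i - p' j‖ = ‖p i - p j‖ := fun i j => by
    show ‖(p i - x0) - (p j - x0)‖ = _
    rw [sub_sub_sub_cancel_right]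
  have ht : ∀ i, 0 ≤ td p' i := by
    have h1 : ∀ i j, 0 ≤ 1 - ‖p' i - p' j‖ ^ 2 := fun i j => by
      rw [hpp']
      have h2 := hpp i j
      have h3 := norm_nonneg (p i - p j)
      nlinarith
    intro i
    fin_cases i
    · exact h1 0 1
    · exact h1 0 2
    · exact h1 0 3
    · exact h1 1 2
    · exact h1 1 3
    · exact h1 2 3
  have hsum := sum_le hR' (hr3.trans hRr) ht hl0 hl1 hlz
  have hTX : Ts (td p') ≤ X := by
    by_contra hcon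
    push Not at hcon
    have h4 : 0 < 4 * R ^ 2 - 1 := by nlinarith
    have h5 : X * (4 * R ^ 2 - 1) < Ts (td p') * (4 * R ^ 2 - 1) :=
      mul_lt_mul_of_pos_right hcon h4
    nlinarith [mul_nonneg hX0 (sub_nonneg.2 hRr)]
  obtain ⟨Φ, Y, hY0, hY, hRY, hst⟩ := state2 hR' hR0 (hRR.trans hR16) ht (hTX.trans hX1)
  refine ⟨Φ, x0, td p', ht, ?_, hTX, ?_⟩
  · have : R ^ 2 ≤ R1 ^ 2 := by nlinarith
    linarith
  · intro q hq
    have hz : ‖Φ (q - x0)‖ ≤ R := by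
      rw [Φ.norm_map, ← dist_eq_norm]; exact hKR hq
    refine ⟨?_, hz.trans hRR, ?_⟩
    · have h1 : ‖Φ (q - x0)‖ ^ 2 ≤ R ^ 2 := pow_le_pow_left₀ (norm_nonneg _) hz 2
      linarith
    · intro j
      have h1 : ‖Φ (q - x0) - Φ (p' j)‖ ≤ 1 := by
        rw [← map_sub, Φ.norm_map]
        show ‖(q - x0) - (p j - x0)‖ ≤ 1
        rw [sub_sub_sub_cancel_right, ← dist_eq_norm]
        exact hd q hq _ (hpK j)
      have h2 := hst (Φ (q - x0)) j hz h1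
      rw [inner_pt] at h2
      exact h2

/-- **CONFIGURATION LEMMA**, sharp residual, centre in the body. `K` compact, of diameter at most one, in no ball of
radius `r0` but in a ball of radius `R1`. -/
theorem config3 {K : Set E3} (hK : IsCompact K) (hc : Convex ℝ K) (hd : ∀ x ∈ K, ∀ y ∈ K, dist x y ≤ 1)
    {r0 R1 X : ℝ} (hr0 : 0 ≤ r0) (hr3 : 1 / 3 ≤ r0 ^ 2) (hno : ¬ ∃ x0, K ⊆ Metric.closedBall x0 r0)
    (hin : ∃ x1, K ⊆ Metric.closedBall x1 R1) (hR16 : R1 ≤ 6124 / 10000)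
    (hX0 : 0 ≤ X) (hX1 : X ≤ 18 / 100)
    (hX : 3 - 8 * r0 ^ 2 ≤ X * (4 * r0 ^ 2 - 1)) :
    ∃ (Φ : E3 ≃ₗᵢ[ℝ] V3) (x0 : E3) (t : Fin 6 → ℝ), (∀ i, 0 ≤ t i) ∧
      6 - 16 * R1 ^ 2 ≤ Ts t ∧ Ts t ≤ X ∧ x0 ∈ K ∧
      ∀ q ∈ K, ‖Φ (q - x0)‖ ^ 2 ≤ (6 - Ts t) / 16 + Ts t ^ 2 / (1 - Ts t) / 32 ∧
        ‖Φ (q - x0)‖ ≤ R1 ∧
        ∀ j, ‖Φ (q - x0)‖ ^ 2 + (6 - Ts t) / 16 - 1 - 2 * (Real.sqrt 2 / 4 *
          ∑ k, Φ (q - x0) k * Ct t j k) ≤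
            (711 / 10000 + 133 / 1000 * Ts t) * Ts t ^ 2 := by
  obtain ⟨x0, R, p, l, hrR, hKR, hpK, hpR, hl0, hl1, hlz, hpp⟩ := exists_contact hK hd hr0 hr3 hno
  have hR0 : 0 ≤ R := hr0.trans hrR.le
  have hRr : r0 ^ 2 ≤ R ^ 2 := by nlinarith
  have hRR : R ≤ R1 := by
    obtain ⟨x1, hx1⟩ := hin
    have hvar := var_id p l hl1 x1
    have hvar0 := var_id p l hl1 x0
    rw [hlz, norm_zero] at hvar0
    have e0 : ∑ i, l i * ‖p i - x0‖ ^ 2 = R ^ 2 := by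
      simp only [hpR]; rw [← sum_mul, hl1, one_mul]
    have hb : ∀ i, ‖p i - x1‖ ≤ R1 := fun i => by
      have := hx1 (hpK i); rwa [Metric.mem_closedBall, dist_eq_norm] at this
    have hR1 : 0 ≤ R1 := (norm_nonneg _).trans (hb 0)
    have e1 : ∑ i, l i * ‖p i - x1‖ ^ 2 ≤ R1 ^ 2 := by
      calc ∑ i, l i * ‖p i - x1‖ ^ 2 ≤ ∑ i, l i * R1 ^ 2 :=
            sum_le_sum fun i _ => mul_le_mul_of_nonneg_left
              (pow_le_pow_left₀ (norm_nonneg _) (hb i) 2) (hl0 i).le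
        _ = R1 ^ 2 := by rw [← sum_mul, hl1, one_mul]
    have h3 : R ^ 2 ≤ R1 ^ 2 := by nlinarith [sq_nonneg ‖∑ i, l i • (p i - x1)‖]
    exact abs_le_of_sq_le_sq' h3 hR1 |>.2
  let p' : Fin 4 → E3 := fun i => p i - x0
  have hR' : ∀ i, ‖p' i‖ = R := hpR
  have hpp' : ∀ i j, ‖p' i - p' j‖ = ‖p i - p j‖ := fun i j => by
    show ‖(p i - x0) - (p j - x0)‖ = _
    rw [sub_sub_sub_cancel_right]
  have ht : ∀ i, 0 ≤ td p' i := by
    have h1 : ∀ i j, 0 ≤ 1 - ‖p' i - p' j‖ ^ 2 := fun i j => by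
      rw [hpp']
      have h2 := hpp i j
      have h3 := norm_nonneg (p i - p j)
      nlinarith
    intro i
    fin_cases i
    · exact h1 0 1
    · exact h1 0 2
    · exact h1 0 3
    · exact h1 1 2
    · exact h1 1 3
    · exact h1 2 3
  have hsum := sum_le hR' (hr3.trans hRr) ht hl0 hl1 hlz
  have hTX : Ts (td p') ≤ X := by
    by_contra hcon
    push Not at hcon
    have h4 : 0 < 4 * R ^ 2 - 1 := by nlinarith
    have h5 : X * (4 * R ^ 2 - 1) < Ts (td p') * (4 * R ^ 2 - 1) :=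
      mul_lt_mul_of_pos_right hcon h4
    nlinarith [mul_nonneg hX0 (sub_nonneg.2 hRr)]
  obtain ⟨Φ, Y, hY0, hY, hRY, hst⟩ := state2 hR' hR0 (hRR.trans hR16) ht (hTX.trans hX1)
  have hx0K : x0 ∈ K := by
    have h1 : ∑ i, l i • p i = x0 := by
      have h2 : ∑ i, l i • (p i - x0) = ∑ i, l i • p i - (∑ i, l i) • x0 := by
        rw [sum_smul, ← sum_sub_distrib]
        exact sum_congr rfl fun i _ => smul_sub _ _ _
      rw [h2, hl1, one_smul] at hlz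
      exact sub_eq_zero.1 hlz
    rw [← h1]
    exact hc.sum_mem (fun i _ => (hl0 i).le) hl1 (fun i _ => hpK i)
  refine ⟨Φ, x0, td p', ht, ?_, hTX, hx0K, ?_⟩
  · have : R ^ 2 ≤ R1 ^ 2 := by nlinarith
    linarith
  · intro q hq
    have hz : ‖Φ (q - x0)‖ ≤ R := by
      rw [Φ.norm_map, ← dist_eq_norm]; exact hKR hq
    refine ⟨?_, hz.trans hRR, ?_⟩
    · have h1 : ‖Φ (q - x0)‖ ^ 2 ≤ R ^ 2 := pow_le_pow_left₀ (norm_nonneg _) hz 2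
      linarith
    · intro j
      have h1 : ‖Φ (q - x0) - Φ (p' j)‖ ≤ 1 := by
        rw [← map_sub, Φ.norm_map]
        show ‖(q - x0) - (p j - x0)‖ ≤ 1
        rw [sub_sub_sub_cancel_right, ← dist_eq_norm]
        exact hd q hq _ (hpK j)
      have h2 := hst (Φ (q - x0)) j hz h1
      rw [inner_pt] at h2
      exact h2

end Pool.Agent.Helper23.CP
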