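import Pool.Agent.Helper73.PL.NearSum

/-!
# Contact points of the circumscribed ball

`exists_contact`: a compact set of diameter at most one which lies in no ball of radius `r0`
(`1/3 ≤ r0²`) lies in a ball of radius `R` about `x0` and has four points on its boundary with
`x0` as a convex combination with positive weights.
-/

namespace Pool.Agent.Helper23.CP

open Finset

abbrev E3 := EuclideanSpace ℝ (Fin 3)

/-- variance identity -/
theorem var_id (p : Fin 4 → E3) (l : Fin 4 → ℝ) (h1 : ∑ i, l i = 1) (x : E3) :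
    ∑ i, l i * ‖p i - x‖ ^ 2 =
      (∑ i, ∑ j, l i * l j * ‖p i - p j‖ ^ 2) / 2 + ‖∑ i, l i • (p i - x)‖ ^ 2 := by
  have e1 : ∀ i j, ‖p i - p j‖ ^ 2 = ‖p i - x‖ ^ 2 + ‖p j - x‖ ^ 2 -
      2 * inner ℝ (p i - x) (p j - x) := by
    intro i j
    have : p i - p j = (p i - x) - (p j - x) := by abel
    rw [this, norm_sub_sq_real]; ring
  have e2 : ‖∑ i, l i • (p i - x)‖ ^ 2 = ∑ i, ∑ j, l i * l j * inner ℝ (p i - x) (p j - x) := by
    rw [← real_inner_self_eq_norm_sq, sum_inner]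
    refine sum_congr rfl (fun i _ => ?_)
    rw [inner_sum]
    refine sum_congr rfl (fun j _ => ?_)
    rw [real_inner_smul_left, real_inner_smul_right]; ring
  rw [e2]
  simp only [e1]
  simp only [Fin.sum_univ_four] at h1 ⊢
  have h3 : l 3 = 1 - l 0 - l 1 - l 2 := by linarith
  rw [h3]
  ring

theorem exists_contact {K : Set E3} (hK : IsCompact K) (hd : ∀ x ∈ K, ∀ y ∈ K, dist x y ≤ 1)
    {r0 : ℝ} (hr0 : 0 ≤ r0) (hr3 : 1 / 3 ≤ r0 ^ 2)
    (hno : ¬ ∃ x0, K ⊆ Metric.closedBall x0 r0) :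
    ∃ (x0 : E3) (R : ℝ) (p : Fin 4 → E3) (l : Fin 4 → ℝ), r0 < R ∧
      K ⊆ Metric.closedBall x0 R ∧ (∀ i, p i ∈ K) ∧ (∀ i, ‖p i - x0‖ = R) ∧
      (∀ i, 0 < l i) ∧ ∑ i, l i = 1 ∧ ∑ i, l i • (p i - x0) = 0 ∧
      ∀ i j, ‖p i - p j‖ ≤ 1 := by
  classical
  obtain ⟨q, hq, m, hm0, hm1, hm⟩ := Pool.Agent.Helper73.PL.jung_four K hd hr0 hr3 hno
  -- the compact set of configurations
  let F : (Fin 4 → E3) × (Fin 4 → ℝ) → ℝ := fun z =>
    (∑ i, ∑ j, z.2 i * z.2 j * ‖z.1 i - z.1 j‖ ^ 2) / 2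
  have hF : Continuous F := by fun_prop
  have hC : IsCompact ((Set.univ.pi fun _ : Fin 4 => K) ×ˢ stdSimplex ℝ (Fin 4)) :=
    (isCompact_univ_pi fun _ => hK).prod (isCompact_stdSimplex ℝ (Fin 4))
  have hne : ((Set.univ.pi fun _ : Fin 4 => K) ×ˢ stdSimplex ℝ (Fin 4)).Nonempty :=
    ⟨(q, m), fun i _ => hq i, hm0, hm1⟩
  obtain ⟨⟨p, l⟩, ⟨hp, hl0, hl1⟩, hmax⟩ := hC.exists_isMaxOn hne hF.continuousOn
  have hpK : ∀ i, p i ∈ K := fun i => hp i (Set.mem_univ i)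
  have hM : r0 ^ 2 < F (p, l) :=
    hm.trans_le (hmax (⟨fun i _ => hq i, hm0, hm1⟩ : (q, m) ∈
      (Set.univ.pi fun _ : Fin 4 => K) ×ˢ stdSimplex ℝ (Fin 4)))
  have hM0 : 0 ≤ F (p, l) := le_trans (sq_nonneg r0) hM.le
  set R : ℝ := Real.sqrt (F (p, l)) with hR
  have hR2 : R ^ 2 = F (p, l) := Real.sq_sqrt hM0
  have hR0 : 0 ≤ R := Real.sqrt_nonneg _
  have hrR : r0 < R := by
    by_contra hcon
    push Not at hcon
    nlinarith
  -- the ball
  obtain ⟨x0, hx0⟩ : ∃ x0, K ⊆ Metric.closedBall x0 R := by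
    by_contra hcon
    obtain ⟨p', hp', l', hl0', hl1', hlt⟩ := Pool.Agent.Helper73.PL.jung_four K hd hR0
      (by nlinarith) hcon
    have h2 := hmax (⟨fun i _ => hp' i, hl0', hl1'⟩ : (p', l') ∈
      (Set.univ.pi fun _ : Fin 4 => K) ×ˢ stdSimplex ℝ (Fin 4))
    have h3 : F (p', l') ≤ F (p, l) := h2
    rw [← hR2] at h3
    exact absurd h3 (not_le.2 hlt)
  have hdist : ∀ i j, ‖p i - p j‖ ≤ 1 := fun i j => by
    rw [← dist_eq_norm]; exact hd _ (hpK i) _ (hpK j)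
  have hsq : ∀ i j, ‖p i - p j‖ ^ 2 ≤ 1 := fun i j => by
    have := hdist i j
    have h2 := norm_nonneg (p i - p j)
    nlinarith
  have hball : ∀ i, ‖p i - x0‖ ^ 2 ≤ R ^ 2 := fun i => by
    have h1 := hx0 (hpK i)
    rw [Metric.mem_closedBall, dist_eq_norm] at h1
    have h2 := norm_nonneg (p i - x0)
    nlinarith
  have hvar := var_id p l hl1 x0
  have hFe : (∑ i, ∑ j, l i * l j * ‖p i - p j‖ ^ 2) / 2 = R ^ 2 := hR2.symm
  rw [hFe] at hvar
  have hle : ∑ i, l i * ‖p i - x0‖ ^ 2 ≤ R ^ 2 := by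
    calc ∑ i, l i * ‖p i - x0‖ ^ 2 ≤ ∑ i, l i * R ^ 2 :=
          sum_le_sum fun i _ => mul_le_mul_of_nonneg_left (hball i) (hl0 i)
      _ = R ^ 2 := by rw [← sum_mul, hl1, one_mul]
  have hzero : ‖∑ i, l i • (p i - x0)‖ ^ 2 = 0 := le_antisymm (by linarith) (sq_nonneg _)
  have hz : ∑ i, l i • (p i - x0) = 0 := by
    rw [← norm_eq_zero]; exact pow_eq_zero_iff (two_ne_zero) |>.1 hzero
  have heq : ∑ i, l i * (R ^ 2 - ‖p i - x0‖ ^ 2) = 0 := by
    have : ∑ i, l i * (R ^ 2 - ‖p i - x0‖ ^ 2) =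
        (∑ i, l i) * R ^ 2 - ∑ i, l i * ‖p i - x0‖ ^ 2 := by
      rw [sum_mul, ← sum_sub_distrib]
      exact sum_congr rfl fun i _ => by ring
    rw [this, hl1, hvar, hzero]; ring
  have hterm := (sum_eq_zero_iff_of_nonneg (fun i _ =>
    mul_nonneg (hl0 i) (sub_nonneg.2 (hball i)))).1 heq
  -- all weights are positive
  have hpos : ∀ i, 0 < l i := by
    intro k
    rcases (hl0 k).lt_or_eq with h | h
    · exact h
    exfalso
    -- three weights only: the value is at most 1/3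
    have g1 : R ^ 2 ≤ (1 - ∑ i, l i ^ 2) / 2 := by
      rw [← hFe]
      have : ∑ i, ∑ j, l i * l j * ‖p i - p j‖ ^ 2 ≤ 1 - ∑ i, l i ^ 2 := by
        have b1 : ∀ i j, l i * l j * ‖p i - p j‖ ^ 2 ≤ l i * l j * (if i = j then 0 else 1) := by
          intro i j
          refine mul_le_mul_of_nonneg_left ?_ (mul_nonneg (hl0 i) (hl0 j))
          by_cases hij : i = j
          · rw [if_pos hij, hij, sub_self, norm_zero]; simp
          · rw [if_neg hij]; exact hsq i j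
        calc ∑ i, ∑ j, l i * l j * ‖p i - p j‖ ^ 2
            ≤ ∑ i, ∑ j, l i * l j * (if i = j then 0 else 1) :=
              sum_le_sum fun i _ => sum_le_sum fun j _ => b1 i j
          _ = 1 - ∑ i, l i ^ 2 := by
              simp only [Fin.sum_univ_four] at hl1 ⊢
              have h3 : l 3 = 1 - l 0 - l 1 - l 2 := by linarith
              simp
              rw [h3]; ring
      linarith
    have g2 : 1 / 3 ≤ ∑ i, l i ^ 2 := by
      have hk : l k = 0 := h.symm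
      fin_cases k <;> simp only [Fin.sum_univ_four] at hl1 ⊢ <;> simp at hk <;> rw [hk] at hl1 ⊢ <;>
        nlinarith [sq_nonneg (l 0 - l 1), sq_nonneg (l 0 - l 2), sq_nonneg (l 0 - l 3),
          sq_nonneg (l 1 - l 2), sq_nonneg (l 1 - l 3), sq_nonneg (l 2 - l 3)]
    nlinarith
  have hnorm : ∀ i, ‖p i - x0‖ = R := by
    intro i
    have h1 := hterm i (mem_univ i)
    have h2 : R ^ 2 - ‖p i - x0‖ ^ 2 = 0 := by
      rcases mul_eq_zero.1 h1 with h | h
      · exact absurd h (hpos i).ne'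
      · exact h
    have h3 := norm_nonneg (p i - x0)
    nlinarith [sq_nonneg (R - ‖p i - x0‖), sq_nonneg (R + ‖p i - x0‖)]
  exact ⟨x0, R, p, l, hrR, hx0, hpK, hnorm, hpos, hl1, hz, hdist⟩

end Pool.Agent.Helper23.CP
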