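import Mathlib

/-!
# Square root of a symmetric 3 x 3 form, in the form needed for the frame lemma
-/

namespace Pool.Agent.Helper23.CP

open Finset

abbrev V3 := EuclideanSpace ℝ (Fin 3)

/-- the bilinear form of a matrix -/
noncomputable def bil (A : Matrix (Fin 3) (Fin 3) ℝ) (x z : V3) : ℝ := ∑ k, ∑ l, x k * A k l * z l

theorem bil_eq (A : Matrix (Fin 3) (Fin 3) ℝ) (x z : V3) :
    bil A x z = inner ℝ x (WithLp.toLp 2 (A.mulVec z.ofLp) : V3) := by
  rw [PiLp.inner_apply]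
  unfold bil
  refine sum_congr rfl (fun k _ => ?_)
  simp only [Matrix.mulVec, dotProduct, RCLike.inner_apply, conj_trivial]
  rw [sum_mul]
  refine sum_congr rfl (fun l _ => ?_)
  ring

theorem exists_eig (A : Matrix (Fin 3) (Fin 3) ℝ) (hA : A.IsHermitian) {lo hi : ℝ} (hlo : 0 < lo)
    (h1 : ∀ x : V3, lo * ‖x‖ ^ 2 ≤ bil A x x) (h2 : ∀ x : V3, bil A x x ≤ hi * ‖x‖ ^ 2) :
    ∃ (v : OrthonormalBasis (Fin 3) ℝ V3) (s : Fin 3 → ℝ), (∀ i, 0 < s i) ∧
      (∀ i, lo ≤ s i ^ 2) ∧ (∀ i, s i ^ 2 ≤ hi) ∧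
      ∀ i (x : V3), bil A x (v i) = s i ^ 2 * inner ℝ x (v i) := by
  have key : ∀ i (x : V3), bil A x (hA.eigenvectorBasis i) =
      hA.eigenvalues i * inner ℝ x (hA.eigenvectorBasis i) := by
    intro i x
    rw [bil_eq, hA.mulVec_eigenvectorBasis i]
    have : (WithLp.toLp 2 (hA.eigenvalues i • (hA.eigenvectorBasis i).ofLp) : V3) =
        hA.eigenvalues i • hA.eigenvectorBasis i := by
      ext k; simp
    rw [this, real_inner_smul_right]
  have hn : ∀ i, ‖hA.eigenvectorBasis i‖ = 1 := fun i => hA.eigenvectorBasis.orthonormal.1 i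
  have hval : ∀ i, bil A (hA.eigenvectorBasis i) (hA.eigenvectorBasis i) = hA.eigenvalues i := by
    intro i
    rw [key, real_inner_self_eq_norm_sq, hn]; ring
  have hl : ∀ i, lo ≤ hA.eigenvalues i := fun i => by
    have := h1 (hA.eigenvectorBasis i); rw [hval, hn] at this; linarith
  have hh : ∀ i, hA.eigenvalues i ≤ hi := fun i => by
    have := h2 (hA.eigenvectorBasis i); rw [hval, hn] at this; linarith
  have hs : ∀ i, Real.sqrt (hA.eigenvalues i) ^ 2 = hA.eigenvalues i := fun i =>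
    Real.sq_sqrt (by linarith [hl i])
  refine ⟨hA.eigenvectorBasis, fun i => Real.sqrt (hA.eigenvalues i), fun i =>
    Real.sqrt_pos.2 (lt_of_lt_of_le hlo (hl i)), fun i => ?_, fun i => ?_, fun i x => ?_⟩
  · rw [hs]; exact hl i
  · rw [hs]; exact hh i
  · rw [hs]; exact key i x

/-- the symmetric operator with eigenvectors `v` and eigenvalues `s` -/
noncomputable def op (v : OrthonormalBasis (Fin 3) ℝ V3) (s : Fin 3 → ℝ) (x : V3) : V3 :=
  ∑ i, (s i * inner ℝ (v i) x) • v i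

theorem inner_op (v : OrthonormalBasis (Fin 3) ℝ V3) (s : Fin 3 → ℝ) (x : V3) (i : Fin 3) :
    inner ℝ (v i) (op v s x) = s i * inner ℝ (v i) x := by
  unfold op
  rw [inner_sum]
  rw [sum_eq_single i]
  · rw [real_inner_smul_right, real_inner_self_eq_norm_sq, v.orthonormal.1 i]; ring
  · intro j _ hj
    rw [real_inner_smul_right, v.orthonormal.2 (Ne.symm hj), mul_zero]
  · intro h; exact absurd (mem_univ i) h

theorem norm_sq_eq (v : OrthonormalBasis (Fin 3) ℝ V3) (x : V3) :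
    ‖x‖ ^ 2 = ∑ i, inner ℝ (v i) x ^ 2 := by
  rw [← v.sum_sq_norm_inner_right x]
  refine sum_congr rfl (fun i _ => ?_)
  rw [Real.norm_eq_abs, sq_abs]

theorem inner_eq (v : OrthonormalBasis (Fin 3) ℝ V3) (x z : V3) :
    inner ℝ x z = ∑ i, inner ℝ (v i) x * inner ℝ (v i) z := by
  rw [← v.sum_inner_mul_inner x z]
  refine sum_congr rfl (fun i _ => ?_)
  rw [real_inner_comm]

theorem ext_v (v : OrthonormalBasis (Fin 3) ℝ V3) {x z : V3}
    (h : ∀ i, inner ℝ (v i) x = inner ℝ (v i) z) : x = z := by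
  have h1 : ‖x - z‖ ^ 2 = 0 := by
    rw [norm_sq_eq v]
    refine sum_eq_zero (fun i _ => ?_)
    rw [inner_sub_right, h i, sub_self]; ring
  have h2 : ‖x - z‖ = 0 := by
    exact pow_eq_zero_iff (two_ne_zero) |>.1 h1
  exact sub_eq_zero.1 (norm_eq_zero.1 h2)

theorem norm_op_le (v : OrthonormalBasis (Fin 3) ℝ V3) (s : Fin 3 → ℝ) {ν : ℝ} (hν : 0 ≤ ν)
    (hs : ∀ i, |s i| ≤ ν) (x : V3) : ‖op v s x‖ ≤ ν * ‖x‖ := by
  have h1 : ‖op v s x‖ ^ 2 ≤ (ν * ‖x‖) ^ 2 := by
    rw [norm_sq_eq v, mul_pow, norm_sq_eq v x, mul_sum]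
    refine sum_le_sum (fun i _ => ?_)
    rw [inner_op, mul_pow]
    refine mul_le_mul_of_nonneg_right ?_ (sq_nonneg _)
    have := hs i
    rw [← sq_abs (s i)]
    exact pow_le_pow_left₀ (abs_nonneg _) this 2
  exact (abs_le_of_sq_le_sq' h1 (mul_nonneg hν (norm_nonneg _))).2

theorem op_symm (v : OrthonormalBasis (Fin 3) ℝ V3) (s : Fin 3 → ℝ) (x z : V3) :
    inner ℝ (op v s x) z = inner ℝ x (op v s z) := by
  rw [inner_eq v, inner_eq v x]
  refine sum_congr rfl (fun i _ => ?_)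
  rw [inner_op, inner_op]; ring

end Pool.Agent.Helper23.CP
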