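import Pool.Agent.Helper23.CP.Contact
import Pool.Agent.Helper23.CP.Sqrt

/-!
# The frame lemma for four points on a sphere

`t` = six defects, `Em t` = the linear matrix, `pt t j` = the affine state.
-/

namespace Pool.Agent.Helper23.CP

open Finset

/-- sign vectors -/
def sg : Fin 4 → Fin 3 → ℝ := ![![1, 1, 1], ![1, -1, -1], ![-1, 1, -1], ![-1, -1, 1]]

/-- sign vectors in the space -/
noncomputable def sv (j : Fin 4) : V3 := WithLp.toLp 2 (sg j)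

/-- the matrix of the six defects `t 0 .. t 5` = `t01 t02 t03 t12 t13 t23` -/
def Em (t : Fin 6 → ℝ) : Matrix (Fin 3) (Fin 3) ℝ :=
  ![![t 0 - t 1 - t 2 - t 3 - t 4 + t 5, t 3 - t 2, t 4 - t 1],
    ![t 3 - t 2, - t 0 + t 1 - t 2 - t 3 + t 4 - t 5, t 5 - t 0],
    ![t 4 - t 1, t 5 - t 0, - t 0 - t 1 + t 2 + t 3 - t 4 - t 5]]

/-- `1 + E / 2` -/
noncomputable def Am (t : Fin 6 → ℝ) : Matrix (Fin 3) (Fin 3) ℝ :=
  fun k l => (if k = l then 1 else 0) + Em t k l / 2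

/-- the off-diagonal vector -/
noncomputable def wv (t : Fin 6 → ℝ) : V3 := WithLp.toLp 2 ![t 5 - t 0, t 4 - t 1, t 3 - t 2]

theorem Am_herm (t : Fin 6 → ℝ) : (Am t).IsHermitian := by
  ext k l
  fin_cases k <;> fin_cases l <;> simp [Am, Em, Matrix.conjTranspose_apply]

theorem bil_symm (t : Fin 6 → ℝ) (x z : V3) : bil (Am t) x z = bil (Am t) z x := by
  unfold bil Am Em
  simp [Fin.sum_univ_three]
  ring

/-- the total defect -/
def Ts (t : Fin 6 → ℝ) : ℝ := t 0 + t 1 + t 2 + t 3 + t 4 + t 5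

theorem nsq (x : V3) : ‖x‖ ^ 2 = x 0 ^ 2 + x 1 ^ 2 + x 2 ^ 2 := by
  rw [EuclideanSpace.norm_sq_eq]
  simp [Fin.sum_univ_three]

/-- the form of `E` as a sum over the six pairs -/
theorem bil_Am (t : Fin 6 → ℝ) (x : V3) : bil (Am t) x x = ‖x‖ ^ 2 +
    (t 0 * (x 0 ^ 2 - (x 1 + x 2) ^ 2) + t 1 * (x 1 ^ 2 - (x 0 + x 2) ^ 2) +
     t 2 * (x 2 ^ 2 - (x 0 + x 1) ^ 2) + t 3 * (x 2 ^ 2 - (x 0 - x 1) ^ 2) +
     t 4 * (x 1 ^ 2 - (x 0 - x 2) ^ 2) + t 5 * (x 0 ^ 2 - (x 1 - x 2) ^ 2)) / 2 := by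
  rw [nsq]
  unfold bil Am Em
  simp [Fin.sum_univ_three]
  ring

theorem bil_lo (t : Fin 6 → ℝ) (ht : ∀ i, 0 ≤ t i) (x : V3) :
    (1 - Ts t) * ‖x‖ ^ 2 ≤ bil (Am t) x x := by
  rw [bil_Am, nsq]
  unfold Ts
  have h : ∀ i, ∀ a b c s : ℝ, s ^ 2 ≤ 2 * (b ^ 2 + c ^ 2) →
      - 2 * (t i * (a ^ 2 + b ^ 2 + c ^ 2)) ≤ t i * (a ^ 2 - s ^ 2) := by
    intro i a b c s hs
    nlinarith [ht i, mul_nonneg (ht i) (sq_nonneg a), mul_nonneg (ht i) (sub_nonneg.2 hs)]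
  have h0 := h 0 (x 0) (x 1) (x 2) (x 1 + x 2) (by nlinarith [sq_nonneg (x 1 - x 2)])
  have h1 := h 1 (x 1) (x 0) (x 2) (x 0 + x 2) (by nlinarith [sq_nonneg (x 0 - x 2)])
  have h2 := h 2 (x 2) (x 0) (x 1) (x 0 + x 1) (by nlinarith [sq_nonneg (x 0 - x 1)])
  have h3 := h 3 (x 2) (x 0) (x 1) (x 0 - x 1) (by nlinarith [sq_nonneg (x 0 + x 1)])
  have h4 := h 4 (x 1) (x 0) (x 2) (x 0 - x 2) (by nlinarith [sq_nonneg (x 0 + x 2)])
  have h5 := h 5 (x 0) (x 1) (x 2) (x 1 - x 2) (by nlinarith [sq_nonneg (x 1 + x 2)])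
  nlinarith

theorem bil_hi (t : Fin 6 → ℝ) (ht : ∀ i, 0 ≤ t i) (x : V3) :
    bil (Am t) x x ≤ (1 + Ts t / 2) * ‖x‖ ^ 2 := by
  rw [bil_Am, nsq]
  unfold Ts
  have h : ∀ i, ∀ a b c s : ℝ,
      t i * (a ^ 2 - s ^ 2) ≤ t i * (a ^ 2 + b ^ 2 + c ^ 2) := by
    intro i a b c s
    nlinarith [ht i, mul_nonneg (ht i) (sq_nonneg b), mul_nonneg (ht i) (sq_nonneg c),
      mul_nonneg (ht i) (sq_nonneg s)]
  have h0 := h 0 (x 0) (x 1) (x 2) (x 1 + x 2)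
  have h1 := h 1 (x 1) (x 0) (x 2) (x 0 + x 2)
  have h2 := h 2 (x 2) (x 0) (x 1) (x 0 + x 1)
  have h3 := h 3 (x 2) (x 0) (x 1) (x 0 - x 1)
  have h4 := h 4 (x 1) (x 0) (x 2) (x 0 - x 2)
  have h5 := h 5 (x 0) (x 1) (x 2) (x 1 - x 2)
  nlinarith

/-- six defects of four points -/
noncomputable def td (p : Fin 4 → E3) : Fin 6 → ℝ :=
  ![1 - ‖p 0 - p 1‖ ^ 2, 1 - ‖p 0 - p 2‖ ^ 2, 1 - ‖p 0 - p 3‖ ^ 2, 1 - ‖p 1 - p 2‖ ^ 2,
    1 - ‖p 1 - p 3‖ ^ 2, 1 - ‖p 2 - p 3‖ ^ 2]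

/-- the three difference vectors -/
noncomputable def mv (p : Fin 4 → E3) (k : Fin 3) : E3 := ∑ i, sg i k • p i

/-- the linear map of the three vectors -/
noncomputable def Lm (p : Fin 4 → E3) (x : V3) : E3 := ∑ k, x k • mv p k

theorem inner_pp (p : Fin 4 → E3) {R : ℝ} (hR : ∀ i, ‖p i‖ = R) (i j : Fin 4) :
    inner ℝ (p i) (p j) = (2 * R ^ 2 - ‖p i - p j‖ ^ 2) / 2 := by
  rw [norm_sub_sq_real, hR, hR]; ring

theorem inner_mv (p : Fin 4 → E3) {R : ℝ} (hR : ∀ i, ‖p i‖ = R) (k l : Fin 3) :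
    inner ℝ (mv p k) (mv p l) = 2 * Am (td p) k l := by
  have es : ∀ i j, ‖p i - p j‖ = ‖p j - p i‖ := fun i j => norm_sub_rev _ _
  have h : inner ℝ (mv p k) (mv p l) = ∑ i, ∑ j, sg i k * sg j l *
      ((2 * R ^ 2 - ‖p i - p j‖ ^ 2) / 2) := by
    unfold mv
    rw [sum_inner]
    refine sum_congr rfl (fun i _ => ?_)
    rw [inner_sum]
    refine sum_congr rfl (fun j _ => ?_)
    rw [real_inner_smul_left, real_inner_smul_right, inner_pp p hR]; ring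
  rw [h]
  simp only [Fin.sum_univ_four]
  rw [es 1 0, es 2 0, es 3 0, es 2 1, es 3 1, es 3 2]
  fin_cases k <;> fin_cases l <;> simp [Am, Em, td, sg] <;> ring

theorem inner_Lm (p : Fin 4 → E3) {R : ℝ} (hR : ∀ i, ‖p i‖ = R) (x z : V3) :
    inner ℝ (Lm p x) (Lm p z) = 2 * bil (Am (td p)) x z := by
  unfold Lm bil
  rw [sum_inner, mul_sum]
  refine sum_congr rfl (fun k _ => ?_)
  rw [inner_sum, mul_sum]
  refine sum_congr rfl (fun l _ => ?_)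
  rw [real_inner_smul_left, real_inner_smul_right, inner_mv p hR]
  ring

/-- centroid -/
noncomputable def cg (p : Fin 4 → E3) : E3 := ∑ i, (1 / 4 : ℝ) • p i

theorem inner_cg (p : Fin 4 → E3) {R : ℝ} (hR : ∀ i, ‖p i‖ = R) (x : V3) :
    inner ℝ (cg p) (Lm p x) = - (1 / 4) * inner ℝ (wv (td p)) x := by
  have es : ∀ i j, ‖p i - p j‖ = ‖p j - p i‖ := fun i j => norm_sub_rev _ _
  have hk : ∀ k, inner ℝ (cg p) (mv p k) = - (1 / 4) * wv (td p) k := by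
    intro k
    have h : inner ℝ (cg p) (mv p k) = ∑ i, ∑ j, (1 / 4) * sg j k *
        ((2 * R ^ 2 - ‖p i - p j‖ ^ 2) / 2) := by
      unfold mv cg
      rw [sum_inner]
      refine sum_congr rfl (fun i _ => ?_)
      rw [inner_sum]
      refine sum_congr rfl (fun j _ => ?_)
      rw [real_inner_smul_left, real_inner_smul_right, inner_pp p hR]; ring
    rw [h]
    simp only [Fin.sum_univ_four]
    rw [es 1 0, es 2 0, es 3 0, es 2 1, es 3 1, es 3 2]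
    fin_cases k <;> simp [wv, td, sg] <;> ring
  unfold Lm
  rw [inner_sum, PiLp.inner_apply, mul_sum]
  refine sum_congr rfl (fun k _ => ?_)
  rw [real_inner_smul_right, hk k]
  simp only [RCLike.inner_apply, conj_trivial]
  ring

theorem p_eq (p : Fin 4 → E3) (j : Fin 4) : p j = cg p + (1 / 4 : ℝ) • Lm p (sv j) := by
  unfold Lm cg mv
  fin_cases j <;> simp [Fin.sum_univ_three, Fin.sum_univ_four, sv, sg] <;> module

end Pool.Agent.Helper23.CP
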