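import Pool.Agent.Helper23.CP.Config6
import Pool.Agent.Helper80.CW.DD

/-!
# From the configuration lemma to the domain `DomC`

`glue`: a compact convex set of diameter at most one which lies in no ball of radius `r0` but in a
ball of radius `R1`, in the frame of its contact points.
-/

set_option linter.all false

namespace Pool.Agent.Helper23.CP

open Finset Helper80.CW.DL

/-- the edge defects as a function of the signed axes -/
noncomputable def tS (t : Fin 6 → ℝ) : St → ℝ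
  | (0, false) => t 0
  | (0, true) => t 5
  | (1, false) => t 1
  | (1, true) => t 4
  | (2, false) => t 2
  | (2, true) => t 3

theorem Tt_tS (t : Fin 6 → ℝ) : Tt (tS t) = Ts t := by
  simp only [Tt, tS, Ts]; ring

theorem Lf_tS (t : Fin 6 → ℝ) (j : Fin 4) (z : V3) :
    Lf (Helper80.CW.DL.cg j) (tS t) (v3 z) = ∑ k, z k * Ct t j k := by
  fin_cases j <;>
    simp [Lf, Helper80.CW.DL.cg, cgz, Eg, tS, v3, Ct, Fin.sum_univ_three] <;> ring

theorem n2_v3 (z : V3) : n2 (v3 z) = ‖z‖ ^ 2 := by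
  rw [nsq]; rfl

theorem qe_false (u p : V3) : qe false (v3 u) (v3 p) = v3 (p + (1 / 2 : ℝ) • u) := by
  simp [qe, v3]
  refine ⟨?_, ?_, ?_⟩ <;> ring

theorem qe_true (u p : V3) : qe true (v3 u) (v3 p) = v3 (p - (1 / 2 : ℝ) • u) := by
  simp [qe, v3]
  refine ⟨?_, ?_, ?_⟩ <;> ring

/-- crude bound of the contact form -/
theorem Lf_abs (t : Fin 6 → ℝ) (ht : ∀ i, 0 ≤ t i) (hT : Ts t ≤ 18 / 100) (j : Fin 4) (z : V3)
    (hz : ‖z‖ ≤ 6124 / 10000) : |∑ k, z k * Ct t j k| ≤ 3 := by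
  have hzk : ∀ k, |z k| ≤ 6124 / 10000 := by
    intro k
    have h1 : z k ^ 2 ≤ ‖z‖ ^ 2 := by
      rw [nsq]
      fin_cases k <;> simp <;> nlinarith [sq_nonneg (z 0), sq_nonneg (z 1), sq_nonneg (z 2)]
    have h2 : |z k| ≤ ‖z‖ := by
      have h3 := abs_le_of_sq_le_sq' h1 (norm_nonneg z)
      exact abs_le.2 h3
    linarith
  unfold Ts at hT
  have hC : ∀ k, |Ct t j k| ≤ 1135 / 1000 := by
    intro k
    have h0 := ht 0
    have h1 := ht 1
    have h2 := ht 2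
    have h3 := ht 3
    have h4 := ht 4
    have h5 := ht 5
    rw [abs_le]
    fin_cases j <;> fin_cases k <;> simp [Ct] <;> constructor <;> linarith
  calc |∑ k, z k * Ct t j k| ≤ ∑ k, |z k * Ct t j k| := abs_sum_le_sum_abs _ _
    _ ≤ ∑ _k : Fin 3, (6124 / 10000 : ℝ) * (1135 / 1000) := by
        refine sum_le_sum (fun k _ => ?_)
        rw [abs_mul]
        exact mul_le_mul (hzk k) (hC k) (abs_nonneg _) (by norm_num)
    _ ≤ 3 := by simp; norm_num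

/-- **GLUE**: configuration domain of a body in the frame of its contact points -/
theorem glue {K : Set E3} (hK : IsCompact K) (hc : Convex ℝ K)
    (hd : ∀ x ∈ K, ∀ y ∈ K, dist x y ≤ 1)
    {r0 R1 X T1 r δ e1 e2 : ℝ} (hr0 : 0 ≤ r0) (hr3 : 1 / 3 ≤ r0 ^ 2)
    (hno : ¬ ∃ x0, K ⊆ Metric.closedBall x0 r0)
    (hin : ∃ x1, K ⊆ Metric.closedBall x1 R1) (hR16 : R1 ≤ 6124 / 10000)
    (hX0 : 0 ≤ X) (hX1 : X ≤ 18 / 100)
    (hX : 3 - 8 * r0 ^ 2 ≤ X * (4 * r0 ^ 2 - 1)) (hT1 : T1 ≤ 6 - 16 * R1 ^ 2)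
    (hr : |r - Real.sqrt 2 / 2| ≤ δ) (he1 : X ^ 2 / (1 - X) / 32 ≤ e1)
    (he2 : (711 / 10000 + 133 / 1000 * X) * X ^ 2 + 3 * δ ≤ e2) :
    ∃ (x0 : E3) (B : E3 ≃ₗᵢ[ℝ] E3) (t : St → ℝ), x0 ∈ K ∧
      ∀ u p : E3, ‖u‖ = 1 → x0 + B (p + (1 / 2 : ℝ) • u) ∈ K →
        x0 + B (p - (1 / 2 : ℝ) • u) ∈ K → DomC T1 X r e1 e2 t (v3 u) (v3 p) := by
  obtain ⟨Φ, x0, t, ht, hlo, hhi, hx0, hq⟩ := config3 hK hc hd hr0 hr3 hno hin hR16 hX0 hX1 hX
  have hT0 : 0 ≤ Ts t := by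
    unfold Ts; linarith [ht 0, ht 1, ht 2, ht 3, ht 4, ht 5]
  have e1' : Ts t ^ 2 / (1 - Ts t) / 32 ≤ e1 := by
    refine le_trans ?_ he1
    refine div_le_div_of_nonneg_right ?_ (by norm_num)
    exact div_le_div₀ (sq_nonneg _) (pow_le_pow_left₀ hT0 hhi 2) (by linarith) (by linarith)
  have e2' : (711 / 10000 + 133 / 1000 * Ts t) * Ts t ^ 2 + 3 * δ ≤ e2 := by
    refine le_trans ?_ he2
    have h1 : (711 / 10000 + 133 / 1000 * Ts t) * Ts t ^ 2 ≤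
        (711 / 10000 + 133 / 1000 * X) * X ^ 2 :=
      mul_le_mul (by linarith) (pow_le_pow_left₀ hT0 hhi 2) (sq_nonneg _) (by positivity)
    linarith
  have key : ∀ z : E3, x0 + Φ.symm z ∈ K → n2 (v3 z) ≤ (6 - Ts t) / 16 + e1 ∧
      ∀ j, n2 (v3 z) + (6 - Ts t) / 16 - 1 - r * Lf (Helper80.CW.DL.cg j) (tS t) (v3 z) ≤ e2 := by
    intro z hz
    obtain ⟨h1, h2, h3⟩ := hq _ hz
    have e : Φ (x0 + Φ.symm z - x0) = z := by
      rw [add_sub_cancel_left]; exact Φ.apply_symm_apply z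
    rw [e] at h1 h2 h3
    rw [n2_v3]
    refine ⟨by linarith, fun j => ?_⟩
    rw [Lf_tS]
    have h4 := h3 j
    have h5 := Lf_abs t ht (hhi.trans hX1) j z (h2.trans hR16)
    have h6 : |(Real.sqrt 2 / 2 - r) * ∑ k, z k * Ct t j k| ≤ δ * 3 := by
      rw [abs_mul, abs_sub_comm]
      exact mul_le_mul hr h5 (abs_nonneg _) ((abs_nonneg _).trans hr)
    have h7 := (abs_le.1 h6).2
    linarith
  refine ⟨x0, Φ.symm, tS t, hx0, fun u p hu hp hm => ?_⟩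
  obtain ⟨a1, a2⟩ := key _ hp
  obtain ⟨b1, b2⟩ := key _ hm
  refine ⟨?_, ?_, ?_, ?_, ?_⟩
  · rintro ⟨k, b⟩
    fin_cases k <;> cases b <;> simp only [tS] <;> exact ht _
  · rw [Tt_tS]; linarith
  · rw [Tt_tS]; exact hhi
  · intro b
    rw [Tt_tS]
    cases b
    · rw [qe_false]; exact a1
    · rw [qe_true]; exact b1
  · intro b j
    rw [Tt_tS]
    cases b
    · rw [qe_false]; exact a2 j
    · rw [qe_true]; exact b2 j

end Pool.Agent.Helper23.CP
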