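import Pool.Agent.Helper23.CP.Glue
import Pool.Agent.Helper23.CP.Chord
import Pool.Agent.Helper80.CW.DA

/-!
# From the configuration lemma to the domain `DomA` (slacks affine in the total defect)
-/

set_option linter.all false

namespace Pool.Agent.Helper23.CP

open Finset Helper80.CW.DL

/-- **GLUE with affine slacks** -/
theorem glueA {K : Set E3} (hK : IsCompact K) (hc : Convex ℝ K)
    (hd : ∀ x ∈ K, ∀ y ∈ K, dist x y ≤ 1)
    {r0 R1 X T1 r δ e1 f1 e2 f2 c3 : ℝ} (hr0 : 0 ≤ r0) (hr3 : 1 / 3 ≤ r0 ^ 2)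
    (hno : ¬ ∃ x0, K ⊆ Metric.closedBall x0 r0)
    (hin : ∃ x1, K ⊆ Metric.closedBall x1 R1) (hR16 : R1 ≤ 6124 / 10000)
    (hX0 : 0 ≤ X) (hX1 : X ≤ 18 / 100)
    (hX : 3 - 8 * r0 ^ 2 ≤ X * (4 * r0 ^ 2 - 1)) (hT0 : 0 ≤ T1) (hT1 : T1 ≤ 6 - 16 * R1 ^ 2)
    (hr : |r - Real.sqrt 2 / 2| ≤ δ)
    (a1 : T1 ^ 2 / (1 - T1) / 32 ≤ e1 + f1 * T1) (a2 : X ^ 2 / (1 - X) / 32 ≤ e1 + f1 * X)
    (b1 : (711 / 10000 + 133 / 1000 * T1) * T1 ^ 2 + 3 * δ ≤ e2 + f2 * T1)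
    (b2 : (711 / 10000 + 133 / 1000 * X) * X ^ 2 + 3 * δ ≤ e2 + f2 * X) (h3 : R1 ^ 2 ≤ c3) :
    ∃ (x0 : E3) (B : E3 ≃ₗᵢ[ℝ] E3) (t : St → ℝ), x0 ∈ K ∧
      ∀ u p : E3, ‖u‖ = 1 → x0 + B (p + (1 / 2 : ℝ) • u) ∈ K →
        x0 + B (p - (1 / 2 : ℝ) • u) ∈ K → DomA T1 X r e1 f1 e2 f2 c3 t (v3 u) (v3 p) := by
  obtain ⟨Φ, x0, t, ht, hlo, hhi, hx0, hq⟩ := config3 hK hc hd hr0 hr3 hno hin hR16 hX0 hX1 hX
  have hlo' : T1 ≤ Ts t := by linarith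
  have e1' : Ts t ^ 2 / (1 - Ts t) / 32 ≤ e1 + f1 * Ts t :=
    chord_ball hlo' hhi (by linarith) a1 a2
  have e2' : (711 / 10000 + 133 / 1000 * Ts t) * Ts t ^ 2 + 3 * δ ≤ e2 + f2 * Ts t :=
    chord_con hT0 hlo' hhi (by norm_num) (by norm_num) b1 b2
  have key : ∀ z : E3, x0 + Φ.symm z ∈ K → n2 (v3 z) ≤ (6 - Ts t) / 16 + (e1 + f1 * Ts t) ∧
      n2 (v3 z) ≤ c3 ∧
      ∀ j, n2 (v3 z) + (6 - Ts t) / 16 - 1 - r * Lf (Helper80.CW.DL.cg j) (tS t) (v3 z) ≤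
        e2 + f2 * Ts t := by
    intro z hz
    obtain ⟨h1, h2, h3'⟩ := hq _ hz
    have e : Φ (x0 + Φ.symm z - x0) = z := by
      rw [add_sub_cancel_left]; exact Φ.apply_symm_apply z
    rw [e] at h1 h2 h3'
    rw [n2_v3]
    refine ⟨by linarith, (pow_le_pow_left₀ (norm_nonneg _) h2 2).trans h3, fun j => ?_⟩
    rw [Lf_tS]
    have h4 := h3' j
    have h5 := Lf_abs t ht (hhi.trans hX1) j z (h2.trans hR16)
    have h6 : |(Real.sqrt 2 / 2 - r) * ∑ k, z k * Ct t j k| ≤ δ * 3 := by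
      rw [abs_mul, abs_sub_comm]
      exact mul_le_mul hr h5 (abs_nonneg _) ((abs_nonneg _).trans hr)
    have h7 := (abs_le.1 h6).2
    linarith
  refine ⟨x0, Φ.symm, tS t, hx0, fun u p hu hp hm => ?_⟩
  obtain ⟨a1, a3, a2⟩ := key _ hp
  obtain ⟨b1, b3, b2⟩ := key _ hm
  exact {
    pos := by
      rintro ⟨k, b⟩
      fin_cases k <;> cases b <;> simp only [tS] <;> exact ht _
    lo := by rw [Tt_tS]; linarith
    hi := by rw [Tt_tS]; exact hhi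
    ball := by
      intro b
      rw [Tt_tS]
      cases b
      · rw [qe_false]; exact a1
      · rw [qe_true]; exact b1
    con := by
      intro b j
      rw [Tt_tS]
      cases b
      · rw [qe_false]; exact a2 j
      · rw [qe_true]; exact b2 j
    cap := by
      intro b
      cases b
      · rw [qe_false]; exact a3
      · rw [qe_true]; exact b3 }

end Pool.Agent.Helper23.CP
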