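import Pool.Agent.Helper6.TOP.Glue
import Pool.Agent.Helper23.CP.GlueA
import Pool.Agent.Helper80.CW.DJ

/-!
# Project TOP: `Top R0 R1` from a volume bound on the configuration domain
-/

set_option autoImplicit false
set_option linter.all false

namespace Pool.Agent.Helper23.CP

open Set Metric MeasureTheory Helper80.CW Helper82.CW Helper37.FX Helper80.CW.DL
open Pool.Agent.Helper31.SR.FinT Pool.Agent.Helper6.TOP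

/-- `|√2/2 - r| ≤ δ` from rational data -/
theorem r_near {r δ : ℝ} (h1 : 0 ≤ r - δ) (h2 : (r - δ) ^ 2 ≤ 1 / 2) (h3 : 1 / 2 ≤ (r + δ) ^ 2)
    (h4 : 0 ≤ r + δ) : |r - Real.sqrt 2 / 2| ≤ δ := by
  have hs : Real.sqrt 2 ^ 2 = 2 := Real.sq_sqrt (by norm_num)
  have hp : 0 < Real.sqrt 2 := Real.sqrt_pos.2 (by norm_num)
  rw [abs_le]
  constructor
  · have : Real.sqrt 2 / 2 ≤ r + δ := by
      apply le_of_sq_le_sq _ h4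
      nlinarith
    linarith
  · have : r - δ ≤ Real.sqrt 2 / 2 := by
      apply le_of_sq_le_sq _ (by positivity)
      nlinarith
    linarith

/-- the data of a range are consistent -/
structure RgA (R0 R0' R1 R1' T1 X r δ e1 f1 e2 f2 c3 : ℝ) : Prop where
  h0 : 0 < R0'
  h3 : 1 / 3 ≤ R0' ^ 2
  h1 : R0' < R0
  h2 : R1 < R1'
  h4 : R1' ≤ 6124 / 10000
  hX0 : 0 ≤ X
  hX1 : X ≤ 18 / 100
  hX : 3 - 8 * R0' ^ 2 ≤ X * (4 * R0' ^ 2 - 1)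
  hT0 : 0 ≤ T1
  hT : T1 ≤ 6 - 16 * R1' ^ 2
  hr : |r - Real.sqrt 2 / 2| ≤ δ
  a1 : T1 ^ 2 / (1 - T1) / 32 ≤ e1 + f1 * T1
  a2 : X ^ 2 / (1 - X) / 32 ≤ e1 + f1 * X
  b1 : (711 / 10000 + 133 / 1000 * T1) * T1 ^ 2 + 3 * δ ≤ e2 + f2 * T1
  b2 : (711 / 10000 + 133 / 1000 * X) * X ^ 2 + 3 * δ ≤ e2 + f2 * X
  hc : R1' ^ 2 ≤ c3

/-- **`Top R0 R1` from the configuration domain with affine slacks** -/
theorem top_of_domA {R0 R0' R1 R1' T1 X r δ e1 f1 e2 f2 c3 V : ℝ}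
    (hp : RgA R0 R0' R1 R1' T1 X r δ e1 f1 e2 f2 c3) (hV : V ≤ 0.01651)
    (H : ∀ f : E3 → ℝ, SSup f 1 → ∀ x0 ∈ Bd f, ∀ (B : E3 ≃ₗᵢ[ℝ] E3) (t : St → ℝ),
      (∀ u p : E3, ‖u‖ = 1 → x0 + B (p + (1 / 2 : ℝ) • u) ∈ Bd f →
        x0 + B (p - (1 / 2 : ℝ) • u) ∈ Bd f → DomA T1 X r e1 f1 e2 f2 c3 t (v3 u) (v3 p)) →
      ENNReal.ofReal (Real.pi / 6 - 2 * Real.pi * V) ≤ volume (Bd f)) : Top R0 R1 := by
  refine top_of_value hp.h0 hp.h1 hp.h2 hV fun f hf _ hno hin => ?_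
  obtain ⟨x0, B, t, hx0, hD⟩ := glueA (Bd_compact hf) (Bd_convex f) (fun x hx y hy => by
    rw [dist_eq_norm]; exact Bd_dist hf hx hy) hp.h0.le hp.h3 hno hin hp.h4 hp.hX0 hp.hX1 hp.hX
    hp.hT0 hp.hT hp.hr hp.a1 hp.a2 hp.b1 hp.b2 hp.hc
  exact H f hf x0 hx0 B t hD

/-- **`Top R0 R1` from a certificate of form S** -/
theorem top_of_affS {R0 R0' R1 R1' δ : ℝ} {c : Ct2} (hok : c.ok = true)
    (hp : RgA R0 R0' R1 R1' c.T1r c.T2r c.rr δ c.e1r c.f1r c.e2r c.f2r c.c3r)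
    (hV : (c.M : ℝ) / (4 * c.N) ≤ 0.01651)
    (H : ∀ (u p : Helper80.CW.DL.V3), u.1 ^ 2 + u.2.1 ^ 2 + u.2.2 ^ 2 = 1 → 0 ≤ u.2.2 →
      u.2.2 ≤ u.2.1 → u.2.1 ≤ u.1 → c.AffS u p) : Top R0 R1 :=
  top_of_domA hp hV fun f hf x0 hx0 B t hD => Ct2.volAff hok hf hx0 B t hD H

end Pool.Agent.Helper23.CP
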